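import Pool.Agent.Q156.MT.Pair

/-!
# Two sequences indexed by the primes: the joint limit laws and the thresholds
-/

set_option autoImplicit false

namespace Pool.Agent.Q156.MT

open Finset MeasureTheory Filter Pool.Agent.Q120.ET Pool.Agent.Q120.ME
open scoped Topology ENNReal

theorem scale {c : ℝ} (hc : 0 < c) (u : ℝ) : u * Real.log (u / c) - u + c = c * hfun (u / c) := by
  unfold hfun
  field_simp

theorem coded_rel {c : ℝ} (hc : 0 < c) {δ : ℝ} (hδ : 0 ≤ δ) (Ω : Type) [MeasurableSpace Ω] (μ : Measure Ω) [IsProbabilityMeasure μ]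
    (W : Ω → Set ℕ) (hW : IsRandomSet W) (h : ∀ ε : ℝ, 0 < ε → ∀ᶠ x : ℕ in atTop, DD c μ W x ≤ (δ + ε) * Real.log x) :
    ∀ ε : ℝ, 0 < ε → ∀ᶠ y : ℕ in atTop, relEnt (rt2 c) μ W (ind (tot UU) y) ≤ (δ + ε) * La y := by
  intro ε hε
  have h1 := (hh_tendsto 0).eventually (h (ε / 2) (by positivity))
  have h2 := (log_hh 0).eventually (eventually_lt_nhds (show (1 : ℝ) < 1 + ε / (2 * (δ + ε)) by
    have : 0 < ε / (2 * (δ + ε)) := by positivity
    linarith))
  filter_upwards [h1, h2, La_div.eventually_gt_atTop 0] with y hy1 hy2 hy3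
  have h3 : relEnt (rt2 c) μ W (ind (tot UU) y) ≤ DD c μ W (hh 0 y) := by
    rw [DD_eq]
    refine Pool.Agent.Q151.LW.t_MON (rt2 c) _ _ ?_ (rt2_range hc _) Ω μ W hW
    intro n hn
    rw [mem_ind] at hn ⊢
    refine ⟨?_, hn.2⟩
    have := hn.1
    unfold hh
    simp only [Fin.val_zero]
    omega
  refine h3.trans (hy1.trans ?_)
  rw [div_lt_iff₀ hy3] at hy2
  have h4 : 0 ≤ δ + ε / 2 := by positivity
  refine (mul_le_mul_of_nonneg_left hy2.le h4).trans ?_
  rw [← mul_assoc]
  apply mul_le_mul_of_nonneg_right _ hy3.le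
  have h5 : (δ + ε / 2) * (ε / (2 * (δ + ε))) ≤ ε / 2 := by
    rw [mul_div_assoc', div_le_iff₀ (by positivity)]
    nlinarith
  nlinarith

theorem meas_hc (c : ℝ) : Measurable fun a : Fin 2 → ℝ => ∑ i, (a i * Real.log (a i / c) - a i + c) := by
  apply Finset.measurable_fun_sum
  intro i _
  fun_prop

/-- **The joint laws of the limits.** -/
theorem laws {c : ℝ} (hc : 0 < c) {δ : ℝ} (hδ : 0 ≤ δ) (ν : Measure (Fin 2 → ℝ)) [IsProbabilityMeasure ν] :
    (∃ (Ω : Type) (_ : MeasurableSpace Ω) (μ : Measure Ω) (_ : IsProbabilityMeasure μ) (W : Ω → Set ℕ) (L : Ω → Fin 2 → ℝ),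
      IsRandomSet W ∧ (∀ ε : ℝ, 0 < ε → ∀ᶠ x : ℕ in atTop, DD c μ W x ≤ (δ + ε) * Real.log x) ∧ Measurable L ∧ μ.map L = ν ∧
      ∀ᵐ ω ∂μ, ∀ i : Fin 2, Tendsto (fun x : ℕ => (MM (pull i.val (W ω)) x : ℝ) / Real.log x) atTop (𝓝 (L ω i))) ↔
    ν {a | ∃ i, a i < 0} = 0 ∧
      ∫⁻ a, ENNReal.ofReal (∑ i, (a i * Real.log (a i / c) - a i + c)) ∂ν ≤ ENNReal.ofReal δ := by
  have hmneg : MeasurableSet {a : Fin 2 → ℝ | ∃ i, a i < 0} := by
    have h1 : {a : Fin 2 → ℝ | ∃ i, a i < 0} = ⋃ i, {a : Fin 2 → ℝ | a i < 0} := by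
      ext a
      simp
    rw [h1]
    exact MeasurableSet.iUnion fun i => measurableSet_lt (measurable_pi_apply i) measurable_const
  constructor
  · rintro ⟨Ω, mΩ, μ, hμ, W, L, hW, hcls, hL, hmap, hlim⟩
    have hneg : ∀ᵐ ω ∂μ, ∀ i : Fin 2, 0 ≤ L ω i := by
      filter_upwards [hlim] with ω hω i
      refine ge_of_tendsto (hω i) ?_
      filter_upwards [log_tend.eventually_gt_atTop 0] with x hx
      positivity
    constructor
    · rw [← hmap, Measure.map_apply hL hmneg]
      rw [ae_iff] at hneg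
      refine measure_mono_null ?_ hneg
      rintro ω ⟨i, hi⟩
      exact fun h => absurd (h i) (not_le.2 hi)
    · have h1 := upl (types hc) hδ Ω μ W hW (coded_rel hc hδ Ω μ W hW hcls) (fun ω i => L ω i / c)
        (measurable_pi_iff.2 fun i => ((measurable_pi_apply i).comp hL).div_const c) (by
          filter_upwards [hlim] with ω hω i
          have h2 : Tendsto (fun x : ℕ => (MM (pull i.val (W ω)) x : ℝ) / mass Pr (rt c) x) atTop (𝓝 (L ω i / c)) := by
            rw [tendsto_iff hc, mul_div_cancel₀ _ hc.ne']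
            exact hω i
          have h3 := h2.comp (hh_tendsto i)
          refine h3.congr fun y => ?_
          simp only [Function.comp]
          rw [cnt_UU, mass_UU]
          rfl)
      rw [← hmap, lintegral_map (meas_hc c).ennreal_ofReal hL]
      refine le_trans (le_of_eq ?_) h1
      apply lintegral_congr
      intro ω
      congr 1
      apply sum_congr rfl
      intro i _
      exact scale hc _
  · rintro ⟨h0, h1⟩
    obtain ⟨g, hg⟩ : ∃ g : (Fin 2 → ℝ) → Fin 2 → ℝ, g = fun a i => a i / c := ⟨_, rfl⟩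
    have hgm : Measurable g := by
      rw [hg]
      fun_prop
    obtain ⟨g', hg'⟩ : ∃ g' : (Fin 2 → ℝ) → Fin 2 → ℝ, g' = fun a i => c * a i := ⟨_, rfl⟩
    have hgm' : Measurable g' := by
      rw [hg']
      fun_prop
    haveI : IsProbabilityMeasure (ν.map g) := Measure.isProbabilityMeasure_map hgm.aemeasurable
    have hmeas : Measurable fun a : Fin 2 → ℝ => ∑ i, c * hfun (a i) := by
      apply Finset.measurable_fun_sum
      intro i _
      exact (Pool.Agent.Q222.ME.hfun_meas.comp (measurable_pi_apply i)).const_mul _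
    obtain ⟨Ω, mΩ, μ, hμ, W, L, hW, hL, hmap, hcls, hlim, -⟩ := low (types hc) hδ (ν.map g) (by
      rw [Measure.map_apply hgm hmneg]
      refine measure_mono_null ?_ h0
      rintro a ⟨i, hi⟩
      refine ⟨i, ?_⟩
      rw [hg] at hi
      simp only at hi
      rw [div_lt_iff₀ hc, zero_mul] at hi
      exact hi) (by
      rw [lintegral_map hmeas.ennreal_ofReal hgm]
      refine le_trans (le_of_eq ?_) h1
      apply lintegral_congr
      intro a
      congr 1
      apply sum_congr rfl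
      intro i _
      rw [hg]
      exact (scale hc _).symm)
    refine ⟨Ω, mΩ, μ, hμ, W, fun ω => g' (L ω), hW, ?_, hgm'.comp hL, ?_, ?_⟩
    · intro ε hε
      have h4 : Tendsto (fun x : ℕ => 2 * x) atTop atTop := tendsto_id.const_mul_atTop' (by norm_num)
      filter_upwards [h4.eventually (hcls ε hε)] with x hx
      rw [DD_eq]
      rwa [La_two] at hx
    · have h2 : μ.map (fun ω => g' (L ω)) = (μ.map L).map g' := (Measure.map_map hgm' hL).symm
      rw [h2, hmap, Measure.map_map hgm' hgm]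
      have h3 : g' ∘ g = id := by
        funext a
        rw [hg, hg']
        funext i
        simp only [Function.comp, id]
        field_simp
      rw [h3, Measure.map_id]
    · filter_upwards [hlim] with ω hω i
      have h4 : Tendsto (fun x : ℕ => 2 * x) atTop atTop := tendsto_id.const_mul_atTop' (by norm_num)
      have h5 := (hω i).comp h4
      have h6 : Tendsto (fun x : ℕ => (MM (pull i.val (W ω)) x : ℝ) / mass Pr (rt c) x) atTop (𝓝 (L ω i)) := by
        refine h5.congr fun x => ?_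
        simp only [Function.comp]
        rw [cnt_UU, mass_UU, hh_two]
        rfl
      have h7 := (tendsto_iff hc _ _).1 h6
      rw [hg']
      exact h7

/-- the finiteness of one of the two sets -/
theorem fin_iff (S : Set ℕ) (i : Fin 2) : (S ∩ UU i).Finite ↔ (pull i.val S ∩ Pr).Finite := by
  have hi := i.isLt
  constructor
  · intro h
    have h1 : (emb i) '' (pull i.val S ∩ Pr) ⊆ S ∩ UU i := by
      rintro n ⟨q, ⟨h2, h3⟩, rfl⟩
      refine ⟨h2, ?_, ?_⟩
      · change (2 * q + i.val) % 2 = i.val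
        omega
      · change ((2 * q + i.val) / 2).Prime
        have : (2 * q + i.val) / 2 = q := by omega
        rw [this]
        exact h3
    exact Set.Finite.of_finite_image (h.subset h1) (emb i).injective.injOn
  · intro h
    refine (h.image (emb i)).subset ?_
    rintro n ⟨h1, h2, h3⟩
    have h4 : 2 * (n / 2) + i.val = n := by omega
    refine ⟨n / 2, ⟨?_, h3⟩, h4⟩
    change 2 * (n / 2) + i.val ∈ S
    rw [h4]
    exact h1

/-- The bound `t` for the probability of the event `E`, for all random sets with relative entropies at most `d`. -/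
def Bounded (c : ℝ) (d : ℕ → ℝ) (t : ℝ) (E : Set ℕ → Prop) : Prop :=
  ∀ (Ω : Type) [MeasurableSpace Ω] (μ : Measure Ω) [IsProbabilityMeasure μ] (W : Ω → Set ℕ), IsRandomSet W →
    (∀ᶠ x : ℕ in atTop, DD c μ W x ≤ d x) → μ.real {ω | E (W ω)} ≤ t

/-- `liminf d x / log x ≤ a`. -/
def Below (d : ℕ → ℝ) (a : ℝ) : Prop := ∀ ε : ℝ, 0 < ε → ∃ᶠ x : ℕ in atTop, d x ≤ (a + ε) * Real.log x

theorem thr {c : ℝ} (hc : 0 < c) (P : Finset (Finset (Fin 2))) {S₀ : Finset (Fin 2)} (hS₀ : S₀ ∈ P)
    (hne : S₀.Nonempty) (hP : ∀ S ∈ P, S₀.card ≤ S.card) (d : ℕ → ℝ) {t : ℝ} (ht : 0 ≤ t) (ht1 : t < 1) (E : Set ℕ → Prop)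
    (hE : ∀ S : Set ℕ, E S ↔ ∃ T ∈ P, ∀ i ∈ T, (S ∩ UU i).Finite) :
    Bounded c d t E ↔ Below d (S₀.card * c * t) := by
  have h4 : Tendsto (fun x : ℕ => 2 * x) atTop atTop := tendsto_id.const_mul_atTop' (by norm_num)
  have h1 := threshold (types hc) P hS₀ (κ := S₀.card * c) (by
    have : 0 < (S₀.card : ℝ) := by exact_mod_cast hne.card_pos
    positivity) (fun S hS => by
    rw [sum_const, nsmul_eq_mul]
    have : (S₀.card : ℝ) ≤ S.card := by exact_mod_cast hP S hS
    exact mul_le_mul_of_nonneg_right this hc.le) (by rw [sum_const, nsmul_eq_mul]) (fun x => 2 * x) h4 d ht ht1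
  unfold Bounded Below
  simp only [La_two] at h1
  rw [← h1]
  simp only [hE, DD_eq]

end Pool.Agent.Q156.MT
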