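import Pool.Agent.Q156.MT.Upl

/-!
# Random sets near models with independent elements, several types: construction of the limit laws
-/

set_option autoImplicit false

namespace Pool.Agent.Q156.MT

open Finset MeasureTheory Filter Pool.Agent.Q120.ET Pool.Agent.Q120.ME
open Pool.Agent.Q222.ME (rr rr_meas exists_thr small_sum hfun_nonneg hfun_meas kl_self bern_single mass_mono mass_step)
open scoped Topology ENNReal

/-- the rates for one type -/
theorem rr_facts {U : Set ℕ} {p : ℕ → ℝ} (hR : Rates U p) : ∃ K : ℕ → ℕ,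
    (∀ a n, 0 ≤ rr U p K a n ∧ rr U p K a n ≤ 1) ∧
    (∀ a n, n ∉ U → rr U p K a n = 0) ∧
    (∀ a : ℝ, 0 ≤ a → ∀ n ∈ U, kl (rr U p K a n) (p n) ≤ p n * hfun a + p n * √(p n)) ∧
    (∀ a : ℝ, 0 ≤ a → ∀ n ∈ U, K ⌈|a|⌉₊ ≤ n → rr U p K a n = a * p n) ∧
    (∀ a : ℝ, ∀ n ∈ U, n < K ⌈|a|⌉₊ → rr U p K a n = p n) := by
  classical
  obtain ⟨K, hK⟩ := exists_thr hR
  refine ⟨K, ?_⟩
  have hp : ∀ n ∈ U, 0 < p n ∧ p n < 1 := fun n hn => ⟨hR.pos n hn, hR.lt_one n hn⟩
  have hceil : ∀ a : ℝ, |a| ≤ ⌈|a|⌉₊ := fun a => Nat.le_ceil _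
  have hbig : ∀ a : ℝ, ∀ n ∈ U, K ⌈|a|⌉₊ ≤ n → p n ≤ 1 / 2 ∧ (a ^ 2 + 1) * √(p n) ≤ 1 := by
    intro a n hn hKn
    obtain ⟨h1, h2⟩ := hK _ n hKn hn
    refine ⟨h1, le_trans ?_ h2⟩
    apply mul_le_mul_of_nonneg_right _ (Real.sqrt_nonneg _)
    have h3 := hceil a
    have h4 : a ^ 2 ≤ (⌈|a|⌉₊ : ℝ) ^ 2 := by
      rw [← sq_abs]
      exact pow_le_pow_left₀ (abs_nonneg _) h3 2
    linarith
  have hap : ∀ a : ℝ, ∀ n ∈ U, K ⌈|a|⌉₊ ≤ n → max a 0 * p n ≤ 1 := by
    intro a n hn hKn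
    obtain ⟨h1, h2⟩ := hbig a n hn hKn
    have h3 := hp n hn
    have h4 : p n ≤ √(p n) := by
      apply Real.le_sqrt_of_sq_le
      nlinarith
    have h5 : max a 0 ≤ a ^ 2 + 1 := max_le (by nlinarith [sq_nonneg (a - 1)]) (by positivity)
    have h6 : 0 ≤ a ^ 2 + 1 := by positivity
    nlinarith
  refine ⟨?_, ?_, ?_, ?_, ?_⟩
  · intro a n
    unfold rr
    split_ifs with h1 h2
    · exact ⟨mul_nonneg (le_max_right _ _) (hp n h1).1.le, hap a n h1 h2⟩
    · exact ⟨(hp n h1).1.le, (hp n h1).2.le⟩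
    · exact ⟨le_rfl, zero_le_one⟩
  · intro a n hn
    unfold rr
    rw [if_neg hn]
  · intro a ha n hnU
    have hpn := hp n hnU
    have hs := Real.sqrt_nonneg (p n)
    have hh := hfun_nonneg ha
    have e1 : rr U p K a n = if K ⌈|a|⌉₊ ≤ n then max a 0 * p n else p n := if_pos hnU
    rw [e1]
    split_ifs with hKn
    · obtain ⟨g1, g2⟩ := hbig a n hnU hKn
      have g3 := hap a n hnU hKn
      rw [max_eq_left ha] at g3 ⊢
      have g4 := Pool.Agent.Q224.ME.t_KLB a (p n) ha hpn.1 g1 g3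
      have g5 : (a ^ 2 + 1) * p n ^ 2 ≤ p n * √(p n) := by
        have g6 : p n ^ 2 = p n * √(p n) * √(p n) := by
          rw [mul_assoc, Real.mul_self_sqrt hpn.1.le]
          ring
        rw [g6]
        have g7 : 0 ≤ p n * √(p n) := mul_nonneg hpn.1.le hs
        nlinarith
      linarith
    · rw [kl_self hpn.1 hpn.2]
      have := mul_nonneg hpn.1.le hh
      have := mul_nonneg hpn.1.le hs
      linarith
  · intro a ha n hnU hKn
    unfold rr
    rw [if_pos hnU, if_pos hKn, max_eq_left ha]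
  · intro a n hnU hKn
    unfold rr
    rw [if_pos hnU, if_neg (not_le.2 hKn)]

variable {ι : Type} [Fintype ι] [DecidableEq ι]

theorem low {U : ι → Set ℕ} {p Λ : ℕ → ℝ} {c : ι → ℝ} (hT : Types U p Λ c) {δ : ℝ} (hδ : 0 ≤ δ)
    (ν : Measure (ι → ℝ)) [IsProbabilityMeasure ν] (hν0 : ν {a | ∃ i, a i < 0} = 0)
    (hν : ∫⁻ a, ENNReal.ofReal (∑ i, c i * hfun (a i)) ∂ν ≤ ENNReal.ofReal δ) :
    ∃ (Ω : Type) (_ : MeasurableSpace Ω) (μ : Measure Ω) (_ : IsProbabilityMeasure μ) (A : Ω → Set ℕ) (L : Ω → ι → ℝ),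
      IsRandomSet A ∧ Measurable L ∧ μ.map L = ν ∧
      (∀ ε : ℝ, 0 < ε → ∀ᶠ x : ℕ in atTop, relEnt p μ A (ind (tot U) x) ≤ (δ + ε) * Λ x) ∧
      (∀ᵐ ω ∂μ, ∀ i, Tendsto (fun x : ℕ => (cnt (U i) (A ω) x : ℝ) / mass (U i) p x) atTop (𝓝 (L ω i))) ∧
      ∀ᵐ ω ∂μ, ∀ i, L ω i = 0 → ∃ N : ℕ, ∀ n ∈ A ω, n ∈ U i → n < N := by
  classical
  have hc := hT.cpos
  choose K h01 hout hkl hbig hsm using fun i => rr_facts (hT.rates i)
  set R : (ι → ℝ) → ℕ → ℝ := fun a n => ∑ i, rr (U i) p (K i) (a i) n with hRdef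
  have hRi : ∀ a : ι → ℝ, ∀ i, ∀ n ∈ U i, R a n = rr (U i) p (K i) (a i) n := by
    intro a i n hn
    rw [hRdef]
    simp only
    rw [sum_eq_single i]
    · intro j _ hj
      apply hout
      intro h
      exact hj (hT.disj j i n h hn)
    · intro h
      exact absurd (mem_univ i) h
  have hR0 : ∀ a : ι → ℝ, ∀ n, n ∉ tot U → R a n = 0 := by
    intro a n hn
    rw [hRdef]
    simp only
    apply sum_eq_zero
    intro i _
    apply hout
    intro h
    exact hn ⟨i, h⟩
  have hR01 : ∀ a n, 0 ≤ R a n ∧ R a n ≤ 1 := by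
    intro a n
    by_cases h : n ∈ tot U
    · obtain ⟨i, hi⟩ := h
      rw [hRi a i n hi]
      exact h01 i (a i) n
    · rw [hR0 a n h]
      exact ⟨le_rfl, zero_le_one⟩
  have hRm : ∀ n, Measurable fun a => R a n := by
    intro n
    apply Finset.measurable_fun_sum
    intro i _
    exact (rr_meas (U i) p (K i) n).comp (measurable_pi_apply i)
  obtain ⟨Ω, hΩ, μ, hμ, A, π, hM⟩ := Pool.Agent.Q285.ME.t_CON (ι → ℝ) ν R hRm hR01
  have ha0 : ∀ᵐ a ∂ν, ∀ i, 0 ≤ a i := by
    rw [ae_iff]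
    convert hν0 using 2
    ext a
    simp
  refine ⟨Ω, hΩ, μ, hμ, A, π, hM.rand, hM.meas, hM.map, ?_, ?_, ?_⟩
  · -- the relative entropy
    have hmeas : Measurable fun a : ι → ℝ => ∑ i, c i * hfun (a i) := by
      apply Finset.measurable_fun_sum
      intro i _
      exact (hfun_meas.comp (measurable_pi_apply i)).const_mul _
    have hnn : ∀ᵐ a ∂ν, 0 ≤ ∑ i, c i * hfun (a i) := by
      filter_upwards [ha0] with a ha
      exact sum_nonneg fun i _ => mul_nonneg (hc i).le (hfun_nonneg (ha i))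
    have hint : Integrable (fun a : ι → ℝ => ∑ i, c i * hfun (a i)) ν := by
      refine ⟨hmeas.aestronglyMeasurable, ?_⟩
      rw [hasFiniteIntegral_iff_ofReal hnn]
      exact lt_of_le_of_lt hν ENNReal.ofReal_lt_top
    have hinti : ∀ i, Integrable (fun a : ι → ℝ => hfun (a i)) ν := by
      intro i
      refine Integrable.mono' (hint.const_mul (1 / c i)) (hfun_meas.comp (measurable_pi_apply i)).aestronglyMeasurable ?_
      filter_upwards [ha0] with a ha
      rw [Real.norm_eq_abs, abs_of_nonneg (hfun_nonneg (ha i))]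
      have h1 : c i * hfun (a i) ≤ ∑ j, c j * hfun (a j) :=
        single_le_sum (f := fun j => c j * hfun (a j)) (fun j _ => mul_nonneg (hc j).le (hfun_nonneg (ha j))) (mem_univ i)
      have h2 := hc i
      rw [one_div, ← div_eq_inv_mul, le_div_iff₀ h2]
      linarith
    have hsum : ∑ i, c i * ∫ a, hfun (a i) ∂ν ≤ δ := by
      have h1 : ∑ i, c i * ∫ a, hfun (a i) ∂ν = ∫ a, ∑ i, c i * hfun (a i) ∂ν := by
        rw [integral_finsetSum _ fun i _ => (hinti i).const_mul _]
        apply sum_congr rfl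
        intro i _
        rw [integral_const_mul]
      rw [h1, integral_eq_lintegral_of_nonneg_ae hnn hmeas.aestronglyMeasurable]
      exact ENNReal.toReal_le_of_le_ofReal hδ hν
    intro ε hε
    have hg : ∀ i, ∀ η : ℝ, 0 < η → ∀ᶠ n : ℕ in atTop, n ∈ U i → √(p n) < η := by
      intro i η hη
      filter_upwards [(hT.rates i).small (η ^ 2) (by positivity)] with n hn hU
      rw [Real.sqrt_lt' hη]
      exact hn hU
    -- the error
    have hC : 0 < ∑ i, c i + 1 := by
      have : 0 ≤ ∑ i, c i := sum_nonneg fun i _ => (hc i).le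
      linarith
    have hsmall : ∀ᶠ x : ℕ in atTop, ∀ i, ∑ n ∈ ind (U i) x, p n * √(p n) ≤ ε / (2 * (∑ i, c i + 1)) * mass (U i) p x := by
      rw [eventually_all]
      intro i
      exact small_sum (hT.rates i) (hg i) (by positivity)
    have hlim1 : Tendsto (fun x : ℕ => ∑ i, (mass (U i) p x / Λ x) * ∫ a, hfun (a i) ∂ν) atTop (𝓝 (∑ i, c i * ∫ a, hfun (a i) ∂ν)) :=
      tendsto_finsetSum _ fun i _ => (hT.lim i).mul_const _
    have hlim2 : Tendsto (fun x : ℕ => ∑ i, mass (U i) p x / Λ x) atTop (𝓝 (∑ i, c i)) :=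
      tendsto_finsetSum _ fun i _ => hT.lim i
    filter_upwards [hsmall, hlim1.eventually (eventually_lt_nhds (show ∑ i, c i * ∫ a, hfun (a i) ∂ν < δ + ε / 2 by linarith)),
      hlim2.eventually (eventually_lt_nhds (show ∑ i, c i < ∑ i, c i + 1 by linarith)), hT.div.eventually_gt_atTop 0] with x hx1 hx2 hx3 hx4
    have hF : ∀ n ∈ ind (tot U) x, 0 < p n ∧ p n < 1 := by
      intro n hn
      obtain ⟨-, i, hi⟩ := mem_ind.1 hn
      exact ⟨(hT.rates i).pos n hi, (hT.rates i).lt_one n hi⟩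
    obtain ⟨h1, h2⟩ := Pool.Agent.Q224.ME.t_ENM (ι → ℝ) ν R hRm hR01 Ω μ A π hM p (ind (tot U) x) hF
    refine h2.trans ?_
    have hint2 : Integrable (fun a : ι → ℝ => ∑ i, (mass (U i) p x * hfun (a i) + ∑ n ∈ ind (U i) x, p n * √(p n))) ν :=
      integrable_finsetSum _ fun i _ => ((hinti i).const_mul _).add (integrable_const _)
    have h3 : ∫ a, ∑ n ∈ ind (tot U) x, kl (R a n) (p n) ∂ν ≤
        ∫ a, ∑ i, (mass (U i) p x * hfun (a i) + ∑ n ∈ ind (U i) x, p n * √(p n)) ∂ν := by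
      apply integral_mono_ae h1 hint2
      filter_upwards [ha0] with a ha
      change ∑ n ∈ ind (tot U) x, kl (R a n) (p n) ≤ ∑ i, (mass (U i) p x * hfun (a i) + ∑ n ∈ ind (U i) x, p n * √(p n))
      rw [sum_tot hT.disj x (fun n => kl (R a n) (p n))]
      apply sum_le_sum
      intro i _
      unfold mass
      rw [sum_mul, ← sum_add_distrib]
      apply sum_le_sum
      intro n hn
      have hnU := (mem_ind.1 hn).2
      rw [hRi a i n hnU]
      exact hkl i (a i) (ha i) n hnU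
    refine h3.trans ?_
    have h40 : ∀ i ∈ (univ : Finset ι), Integrable (fun a : ι → ℝ => mass (U i) p x * hfun (a i) + ∑ n ∈ ind (U i) x, p n * √(p n)) ν :=
      fun i _ => ((hinti i).const_mul _).add (integrable_const _)
    rw [integral_finsetSum _ h40]
    have h4 : ∀ i, ∫ a : ι → ℝ, (mass (U i) p x * hfun (a i) + ∑ n ∈ ind (U i) x, p n * √(p n)) ∂ν =
        mass (U i) p x * ∫ a, hfun (a i) ∂ν + ∑ n ∈ ind (U i) x, p n * √(p n) := by
      intro i
      rw [integral_add ((hinti i).const_mul _) (integrable_const _), integral_const_mul, integral_const]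
      simp
    simp only [h4]
    rw [sum_add_distrib]
    have h5 : ∑ i, mass (U i) p x * ∫ a, hfun (a i) ∂ν = (∑ i, (mass (U i) p x / Λ x) * ∫ a, hfun (a i) ∂ν) * Λ x := by
      rw [sum_mul]
      apply sum_congr rfl
      intro i _
      field_simp
    have h6 : ∑ i, ∑ n ∈ ind (U i) x, p n * √(p n) ≤ ε / 2 * Λ x := by
      calc ∑ i, ∑ n ∈ ind (U i) x, p n * √(p n) ≤ ∑ i, ε / (2 * (∑ i, c i + 1)) * mass (U i) p x := sum_le_sum fun i _ => hx1 i
        _ = ε / (2 * (∑ i, c i + 1)) * ((∑ i, mass (U i) p x / Λ x) * Λ x) := by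
            rw [← mul_sum, sum_mul]
            congr 1
            apply sum_congr rfl
            intro i _
            field_simp
        _ ≤ ε / (2 * (∑ i, c i + 1)) * ((∑ i, c i + 1) * Λ x) := by
            apply mul_le_mul_of_nonneg_left _ (by positivity)
            exact mul_le_mul_of_nonneg_right hx3.le hx4.le
        _ = ε / 2 * Λ x := by field_simp
    rw [h5]
    have h7 := mul_le_mul_of_nonneg_right hx2.le hx4.le
    linarith
  · -- the limit
    rw [ae_all_iff]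
    intro i
    have h1 := Pool.Agent.Q96.ME.t_SLL (ι → ℝ) ν R hRm hR01 Ω μ A π hM (U i) (mass (U i) p) 1 (mass_mono (hT.rates i)) (hT.rates i).div
      (mass_step (hT.rates i)) (fun a => a i) ?_
    · exact h1
    · filter_upwards [ha0] with a' ha'
      obtain ⟨a, hadef⟩ : ∃ a : ℝ, a = a' i := ⟨_, rfl⟩
      have ha : 0 ≤ a := by
        rw [hadef]
        exact ha' i
      set C := ∑ n ∈ ind (U i) (K i ⌈|a|⌉₊), |p n - a * p n| with hC
      have h2 : ∀ N, |∑ n ∈ ind (U i) N, R a' n - a * mass (U i) p N| ≤ C := by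
        intro N
        unfold mass
        rw [mul_sum, ← sum_sub_distrib]
        refine (abs_sum_le_sum_abs _ _).trans ?_
        have h3 : ∑ n ∈ ind (U i) N, |R a' n - a * p n| = ∑ n ∈ ind (U i) N ∩ ind (U i) (K i ⌈|a|⌉₊), |R a' n - a * p n| := by
          symm
          apply sum_subset inter_subset_left
          intro n hn hn2
          have hnU := (mem_ind.1 hn).2
          have h4 : K i ⌈|a|⌉₊ ≤ n := by
            by_contra hcon
            exact hn2 (mem_inter.2 ⟨hn, mem_ind.2 ⟨not_le.1 hcon, hnU⟩⟩)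
          have e1 := hbig i a ha n hnU h4
          rw [hRi a' i n hnU, ← hadef, e1, sub_self, abs_zero]
        rw [h3]
        calc ∑ n ∈ ind (U i) N ∩ ind (U i) (K i ⌈|a|⌉₊), |R a' n - a * p n|
            ≤ ∑ n ∈ ind (U i) (K i ⌈|a|⌉₊), |R a' n - a * p n| :=
              sum_le_sum_of_subset_of_nonneg inter_subset_right fun _ _ _ => abs_nonneg _
          _ = C := by
              apply sum_congr rfl
              intro n hn
              obtain ⟨g1, g2⟩ := mem_ind.1 hn
              rw [hRi a' i n g2, ← hadef, hsm i a n g2 g1]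
      have h3 : Tendsto (fun N : ℕ => (∑ n ∈ ind (U i) N, R a' n) / mass (U i) p N - a) atTop (𝓝 0) := by
        apply squeeze_zero_norm' (a := fun N => C / mass (U i) p N)
        · filter_upwards [(hT.rates i).div.eventually_gt_atTop 0] with N hN
          have e : (∑ n ∈ ind (U i) N, R a' n) / mass (U i) p N - a = (∑ n ∈ ind (U i) N, R a' n - a * mass (U i) p N) / mass (U i) p N := by
            field_simp
          rw [e, Real.norm_eq_abs, abs_div, abs_of_pos hN]
          exact div_le_div_of_nonneg_right (h2 N) hN.le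
        · exact (hT.rates i).div.const_div_atTop C
      have h4 := h3.add_const a
      rw [← hadef]
      simpa using h4
  · -- finite sets over zero
    rw [ae_all_iff]
    intro i
    have h1 : ∀ n ∈ U i, K i ⌈|(0 : ℝ)|⌉₊ ≤ n → ∀ᵐ ω ∂μ, ¬ (n ∈ A ω ∧ π ω i = 0) := by
      intro n hn hKn
      have hB : MeasurableSet {a : ι → ℝ | a i = 0} := measurableSet_eq_fun (measurable_pi_apply i) measurable_const
      have h2 := hM.law {n} {n} {a | a i = 0} hB
      have h3 : ∫ x in {a : ι → ℝ | a i = 0}, bern (R x) {n} {n} ∂ν = 0 := by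
        apply setIntegral_eq_zero_of_forall_eq_zero
        intro x hx
        rw [bern_single, hRi x i n hn, show x i = 0 from hx, hbig i 0 le_rfl n hn hKn, zero_mul]
      rw [h3, measureReal_eq_zero_iff] at h2
      rw [ae_iff]
      refine measure_mono_null ?_ h2
      intro ω hω
      simp only [Set.mem_ofPred_eq, not_not] at hω
      refine ⟨?_, hω.2⟩
      intro m hm
      rw [Finset.mem_singleton] at hm
      subst hm
      simp [hω.1]
    have h2 : ∀ᵐ ω ∂μ, ∀ n : ℕ, n ∈ U i → K i ⌈|(0 : ℝ)|⌉₊ ≤ n → ¬ (n ∈ A ω ∧ π ω i = 0) := by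
      rw [ae_all_iff]
      intro n
      by_cases hn : n ∈ U i
      · by_cases hKn : K i ⌈|(0 : ℝ)|⌉₊ ≤ n
        · filter_upwards [h1 n hn hKn] with ω hω _ _ using hω
        · exact ae_of_all _ fun _ _ h => absurd h hKn
      · exact ae_of_all _ fun _ h => absurd h hn
    filter_upwards [h2] with ω hω h0
    refine ⟨K i ⌈|(0 : ℝ)|⌉₊, fun n hnA hnU => ?_⟩
    by_contra hcon
    exact hω n hnU (not_lt.1 hcon) ⟨hnA, h0⟩

end Pool.Agent.Q156.MT
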