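import Pool.Agent.Q156.MT.Thr
import Pool.Agent.Erdos456.Mertens

/-!
# Two sequences indexed by the primes: all random sets near the model

The pair of random sets of primes is coded by one random set `W` of integers: `2 q + i ∈ W`, `i = 0, 1`.
-/

set_option autoImplicit false

namespace Pool.Agent.Q156.MT

open Finset MeasureTheory Filter Pool.Agent.Q120.ET Pool.Agent.Q120.ME
open scoped Topology ENNReal

/-- The primes. -/
abbrev Pr : Set ℕ := {n | n.Prime}

/-- The probabilities of the model, at most `1 / 2`. -/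
noncomputable def rt (c : ℝ) (n : ℕ) : ℝ := min (1 / 2) (c * Real.log n / n)

lemma tend0 (c : ℝ) : Tendsto (fun n : ℕ => c * Real.log n / n) atTop (𝓝 0) := by
  have h1 : Tendsto (fun x : ℝ => Real.log x / x) atTop (𝓝 0) :=
    Real.isLittleO_log_id_atTop.tendsto_div_nhds_zero
  have h2 := (h1.comp tendsto_natCast_atTop_atTop).const_mul c
  rw [mul_zero] at h2
  refine h2.congr (fun n => ?_)
  simp only [Function.comp_apply]
  ring

lemma mass_eq (f : ℕ → ℝ) (x : ℕ) :
    mass Pr f x = ∑ n ∈ (range x).filter Nat.Prime, f n := by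
  unfold mass
  refine Finset.sum_congr ?_ (fun _ _ => rfl)
  ext n
  simp [ind]

lemma mass_near {c : ℝ} (hc : 0 < c) : ∃ C : ℝ, ∀ x : ℕ, 2 ≤ x →
    |mass Pr (rt c) x - c * Real.log x| ≤ C := by
  obtain ⟨C, hC⟩ := Pool.Agent.Erdos456.Mert.mertens_log
  obtain ⟨n0, hn0⟩ := eventually_atTop.1 ((tend0 c).eventually (gt_mem_nhds (show (0 : ℝ) < 1 / 2 by norm_num)))
  refine ⟨(∑ n ∈ range n0, |rt c n - c * Real.log n / n|) + c * (C + 1), fun x hx => ?_⟩
  rw [mass_eq]
  set s := (range x).filter Nat.Prime with hs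
  have h1 : |∑ n ∈ s, rt c n - c * ∑ n ∈ s, Real.log n / n| ≤
      ∑ n ∈ range n0, |rt c n - c * Real.log n / n| := by
    have e1 : ∑ n ∈ s, rt c n - c * ∑ n ∈ s, Real.log n / n =
        ∑ n ∈ s, (rt c n - c * Real.log n / n) := by
      rw [Finset.sum_sub_distrib, Finset.mul_sum]
      congr 1
      refine Finset.sum_congr rfl (fun n _ => by ring)
    rw [e1]
    refine (Finset.abs_sum_le_sum_abs _ _).trans ?_
    rw [← Finset.sum_filter_of_ne (p := fun n => n < n0)]
    · refine Finset.sum_le_sum_of_subset_of_nonneg ?_ (fun _ _ _ => abs_nonneg _)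
      intro n hn
      exact mem_range.2 (mem_filter.1 hn).2
    · intro n _ hne
      by_contra hlt
      apply hne
      have := hn0 n (not_lt.1 hlt)
      unfold rt
      rw [min_eq_right this.le, sub_self, abs_zero]
  have h2 : |∑ n ∈ s, Real.log n / n - Real.log x| ≤ C + 1 := by
    have e2 : s = (Icc 1 (x - 1)).filter Nat.Prime := by
      ext n
      rw [hs, mem_filter, mem_filter, mem_range, mem_Icc]
      constructor
      · rintro ⟨h, hp⟩
        exact ⟨⟨hp.one_lt.le, by omega⟩, hp⟩
      · rintro ⟨⟨_, h⟩, hp⟩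
        exact ⟨by omega, hp⟩
    have h3 := hC (x - 1) (by omega)
    rw [← e2] at h3
    have h4 : |Real.log ((x - 1 : ℕ) : ℝ) - Real.log x| ≤ 1 := by
      have hx1 : (0 : ℝ) < ((x - 1 : ℕ) : ℝ) := by
        have : 0 < x - 1 := by omega
        exact_mod_cast this
      have hx2 : (0 : ℝ) < x := by
        have : 0 < x := by omega
        exact_mod_cast this
      have h5 : Real.log ((x - 1 : ℕ) : ℝ) ≤ Real.log x :=
        Real.log_le_log hx1 (by exact_mod_cast (Nat.sub_le x 1))
      have h6 : Real.log x ≤ Real.log ((x - 1 : ℕ) : ℝ) + Real.log 2 := by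
        rw [← Real.log_mul hx1.ne' (by norm_num)]
        refine Real.log_le_log hx2 ?_
        have : x ≤ (x - 1) * 2 := by omega
        exact_mod_cast this
      have h7 : Real.log 2 < 1 := by
        have := Real.log_two_lt_d9
        linarith
      rw [abs_le]
      constructor <;> linarith
    calc |∑ n ∈ s, Real.log n / n - Real.log x|
        = |(∑ n ∈ s, Real.log n / n - Real.log ((x - 1 : ℕ) : ℝ)) +
          (Real.log ((x - 1 : ℕ) : ℝ) - Real.log x)| := by ring_nf
      _ ≤ _ := abs_add_le _ _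
      _ ≤ C + 1 := add_le_add h3 h4
  calc |∑ n ∈ s, rt c n - c * Real.log x|
      = |(∑ n ∈ s, rt c n - c * ∑ n ∈ s, Real.log n / n) +
        c * (∑ n ∈ s, Real.log n / n - Real.log x)| := by ring_nf
    _ ≤ _ := abs_add_le _ _
    _ ≤ _ := by
      rw [abs_mul, abs_of_pos hc]
      exact add_le_add h1 (mul_le_mul_of_nonneg_left h2 hc.le)

lemma log_tend : Tendsto (fun x : ℕ => Real.log x) atTop atTop :=
  Real.tendsto_log_atTop.comp tendsto_natCast_atTop_atTop

lemma mass_lim {c : ℝ} (hc : 0 < c) : Tendsto (fun x : ℕ => mass Pr (rt c) x / Real.log x) atTop (𝓝 c) := by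
  obtain ⟨C, hC⟩ := mass_near hc
  have h1 : Tendsto (fun x : ℕ => (mass Pr (rt c) x - c * Real.log x) / Real.log x)
      atTop (𝓝 0) := by
    refine squeeze_zero_norm' (a := fun x : ℕ => C / Real.log x) ?_ ?_
    · filter_upwards [eventually_ge_atTop 2] with x hx
      have hl : 0 < Real.log x := Real.log_pos (by exact_mod_cast hx)
      rw [Real.norm_eq_abs, abs_div, abs_of_pos hl]
      exact div_le_div_of_nonneg_right (hC x hx) hl.le
    · exact tendsto_const_nhds.div_atTop log_tend
  have h2 := h1.add_const c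
  rw [zero_add] at h2
  refine h2.congr' ?_
  filter_upwards [eventually_ge_atTop 2] with x hx
  have hl : 0 < Real.log x := Real.log_pos (by exact_mod_cast hx)
  field_simp
  ring

lemma rates {c : ℝ} (hc : 0 < c) : Rates Pr (rt c) where
  pos := by
    intro n hn
    have hn : n.Prime := hn
    unfold rt
    refine lt_min (by norm_num) ?_
    have h1 : 0 < Real.log n := Real.log_pos (by exact_mod_cast hn.one_lt)
    have h2 : (0 : ℝ) < n := by exact_mod_cast hn.pos
    positivity
  lt_one := by
    intro n _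
    unfold rt
    exact (min_le_left _ _).trans_lt (by norm_num)
  small := by
    intro ε hε
    filter_upwards [(tend0 c).eventually (gt_mem_nhds hε)] with n hn _
    unfold rt
    exact (min_le_right _ _).trans_lt hn
  div := by
    have h1 := (mass_lim hc).pos_mul_atTop hc log_tend
    refine h1.congr' ?_
    filter_upwards [eventually_ge_atTop 2] with x hx
    have hl : 0 < Real.log x := Real.log_pos (by exact_mod_cast hx)
    field_simp

/-- the limits with respect to `mass` and to `log` -/
theorem tendsto_iff {c : ℝ} (hc : 0 < c) (f : ℕ → ℝ) (l : ℝ) :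
    Tendsto (fun x : ℕ => f x / mass Pr (rt c) x) atTop (𝓝 l) ↔ Tendsto (fun x : ℕ => f x / Real.log x) atTop (𝓝 (c * l)) := by
  have h1 := mass_lim hc
  have h2 : ∀ᶠ x : ℕ in atTop, 0 < mass Pr (rt c) x := (rates hc).div.eventually_gt_atTop 0
  have h3 : ∀ᶠ x : ℕ in atTop, 0 < Real.log x := log_tend.eventually_gt_atTop 0
  constructor
  · intro h
    refine (h1.mul h).congr' ?_
    filter_upwards [h2, h3] with x h4 h5
    field_simp
  · intro h
    have h4 : Tendsto (fun x : ℕ => f x / Real.log x * (mass Pr (rt c) x / Real.log x)⁻¹) atTop (𝓝 (c * l * c⁻¹)) :=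
      h.mul (h1.inv₀ hc.ne')
    rw [show c * l * c⁻¹ = l by field_simp] at h4
    refine h4.congr' ?_
    filter_upwards [h2, h3] with x h4 h5
    field_simp

/-- the condition of convergence -/
theorem conv_iff {c : ℝ} (hc : 0 < c) {d : ℕ → ℝ} (hd : ∀ n, 0 ≤ d n) :
    Conv Pr (rt c) d ↔ Summable (fun n : ℕ => if n.Prime then d n / (n * Real.log n) else 0) := by
  classical
  have hmb : ∀ᶠ x : ℕ in atTop, 1 / 2 * (c * Real.log x) ≤ mass Pr (rt c) x ∧ mass Pr (rt c) x ≤ 3 / 2 * (c * Real.log x) := by
    filter_upwards [(mass_lim hc).eventually (eventually_gt_nhds (show 1 / 2 * c < c by linarith)),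
      (mass_lim hc).eventually (eventually_lt_nhds (show c < 3 / 2 * c by linarith)), log_tend.eventually_gt_atTop 0] with x h2 h3 h4
    rw [lt_div_iff₀ h4] at h2
    rw [div_lt_iff₀ h4] at h3
    constructor <;> nlinarith
  have hw : ∀ᶠ n : ℕ in atTop, rt c n = c * Real.log n / n := by
    filter_upwards [(tend0 c).eventually (eventually_lt_nhds (show (0 : ℝ) < 1 / 2 by norm_num))] with n hn
    unfold rt
    exact min_eq_right hn.le
  unfold Conv
  have key : ∀ᶠ n : ℕ in atTop, rt c n * d n / mass Pr (rt c) n ^ 2 ≤ 4 / c * (d n / (n * Real.log n)) ∧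
      d n / (n * Real.log n) ≤ 9 * c / 4 * (rt c n * d n / mass Pr (rt c) n ^ 2) := by
    filter_upwards [hmb, hw, log_tend.eventually_gt_atTop 0, eventually_gt_atTop 0] with n h1 h2 h3 h4
    have hn : (0 : ℝ) < n := by exact_mod_cast h4
    have hm : 0 < mass Pr (rt c) n := by
      have : 0 < c * Real.log n := by positivity
      nlinarith [h1.1]
    have h5 := hd n
    rw [h2]
    have h6 : (1 / 2 * (c * Real.log n)) ^ 2 ≤ mass Pr (rt c) n ^ 2 := by
      apply pow_le_pow_left₀ (by positivity)
      linarith [h1.1]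
    have h7 : mass Pr (rt c) n ^ 2 ≤ (3 / 2 * (c * Real.log n)) ^ 2 := by
      apply pow_le_pow_left₀ hm.le
      linarith [h1.2]
    constructor
    · calc c * Real.log n / n * d n / mass Pr (rt c) n ^ 2
          ≤ c * Real.log n / n * d n / (1 / 2 * (c * Real.log n)) ^ 2 :=
            div_le_div_of_nonneg_left (by positivity) (by positivity) h6
        _ = 4 / c * (d n / (n * Real.log n)) := by
            field_simp
            ring
    · calc d n / (n * Real.log n) = 9 * c / 4 * (c * Real.log n / n * d n / (3 / 2 * (c * Real.log n)) ^ 2) := by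
            field_simp
            ring
        _ ≤ 9 * c / 4 * (c * Real.log n / n * d n / mass Pr (rt c) n ^ 2) := by
            apply mul_le_mul_of_nonneg_left _ (by positivity)
            exact div_le_div_of_nonneg_left (by positivity) (by positivity) h7
  constructor
  · intro h
    refine Summable.of_norm_bounded_eventually_nat (h.mul_left (9 * c / 4)) ?_
    filter_upwards [key, log_tend.eventually_gt_atTop 0] with n h1 h2
    by_cases hp : n.Prime
    · have h3 := hd n
      rw [if_pos hp, if_pos hp, Real.norm_eq_abs, abs_of_nonneg (by positivity)]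
      exact h1.2
    · rw [if_neg hp, if_neg hp, norm_zero, mul_zero]
  · intro h
    refine Summable.of_norm_bounded_eventually_nat (h.mul_left (4 / c)) ?_
    filter_upwards [key, log_tend.eventually_gt_atTop 0] with n h1 h2
    by_cases hp : n.Prime
    · have h3 := (rates hc).pos n hp
      have h4 := hd n
      rw [if_pos hp, if_pos hp, Real.norm_eq_abs, abs_of_nonneg (by positivity)]
      exact h1.1
    · rw [if_neg hp, if_neg hp, norm_zero, mul_zero]

/-! ## the code -/

/-- the sequence number `i` of the coded set -/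
def pull (i : ℕ) (S : Set ℕ) : Set ℕ := {q | 2 * q + i ∈ S}

/-- the two types of candidates -/
def UU (i : Fin 2) : Set ℕ := {n | n % 2 = i.val ∧ (n / 2).Prime}

/-- the rates of the coded model -/
noncomputable def rt2 (c : ℝ) (n : ℕ) : ℝ := rt c (n / 2)

/-- the index cutoff -/
def hh (i : Fin 2) (y : ℕ) : ℕ := (y + 1 - i.val) / 2

/-- the code of the pair -/
def emb (i : Fin 2) : ℕ ↪ ℕ := ⟨fun q => 2 * q + i.val, fun a b h => by simpa using h⟩

theorem hh_tendsto (i : Fin 2) : Tendsto (hh i) atTop atTop := by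
  apply tendsto_atTop.2
  intro b
  filter_upwards [eventually_ge_atTop (2 * b + 2)] with y hy
  unfold hh
  have := i.isLt
  omega

theorem ind_UU (i : Fin 2) (y : ℕ) : ind (UU i) y = (ind Pr (hh i y)).map (emb i) := by
  ext n
  rw [mem_ind, Finset.mem_map]
  have hi := i.isLt
  constructor
  · rintro ⟨h1, h2, h3⟩
    refine ⟨n / 2, mem_ind.2 ⟨?_, h3⟩, ?_⟩
    · unfold hh
      omega
    · change 2 * (n / 2) + i.val = n
      omega
  · rintro ⟨q, hq, rfl⟩
    rw [mem_ind] at hq
    change 2 * q + i.val < y ∧ (2 * q + i.val) % 2 = i.val ∧ ((2 * q + i.val) / 2).Prime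
    have h1 : (2 * q + i.val) / 2 = q := by omega
    rw [h1]
    refine ⟨?_, by omega, hq.2⟩
    have := hq.1
    unfold hh at this
    omega

theorem rt2_emb (c : ℝ) (i : Fin 2) (q : ℕ) : rt2 c (emb i q) = rt c q := by
  unfold rt2
  congr 1
  change (2 * q + i.val) / 2 = q
  have := i.isLt
  omega

theorem mass_UU (c : ℝ) (i : Fin 2) (y : ℕ) : mass (UU i) (rt2 c) y = mass Pr (rt c) (hh i y) := by
  unfold mass
  rw [ind_UU, sum_map]
  exact sum_congr rfl fun q _ => rt2_emb c i q

theorem cnt_UU (i : Fin 2) (S : Set ℕ) (y : ℕ) : cnt (UU i) S y = cnt Pr (pull i.val S) (hh i y) := by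
  classical
  unfold cnt
  rw [ind_UU, filter_map, card_map]
  rfl

theorem hh_two (i : Fin 2) (x : ℕ) : hh i (2 * x) = x := by
  unfold hh
  have := i.isLt
  omega

theorem UU_disj : ∀ i j : Fin 2, ∀ n, n ∈ UU i → n ∈ UU j → i = j := by
  rintro i j n ⟨h1, _⟩ ⟨h2, _⟩
  exact Fin.ext (h1.symm.trans h2)

theorem tot_UU : tot UU = {n : ℕ | (n / 2).Prime} := by
  ext n
  simp only [tot, UU, Set.mem_ofPred_eq]
  constructor
  · rintro ⟨i, -, h⟩
    exact h
  · intro h
    exact ⟨⟨n % 2, Nat.mod_lt _ (by norm_num)⟩, rfl, h⟩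

theorem rates_UU {c : ℝ} (hc : 0 < c) (i : Fin 2) : Rates (UU i) (rt2 c) where
  pos := fun n hn => (rates hc).pos (n / 2) hn.2
  lt_one := fun n hn => (rates hc).lt_one (n / 2) hn.2
  small := by
    intro ε hε
    have h1 : Tendsto (fun n : ℕ => n / 2) atTop atTop := Nat.tendsto_div_const_atTop (by norm_num)
    filter_upwards [h1.eventually ((rates hc).small ε hε)] with n hn hU
    exact hn hU.2
  div := by
    have h1 : mass (UU i) (rt2 c) = mass Pr (rt c) ∘ hh i := by
      funext y
      exact mass_UU c i y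
    rw [h1]
    exact (rates hc).div.comp (hh_tendsto i)

/-- the scale -/
noncomputable def La (y : ℕ) : ℝ := Real.log ((y / 2 : ℕ) : ℝ)

theorem La_two (x : ℕ) : La (2 * x) = Real.log x := by
  unfold La
  congr 2
  omega

theorem half_tendsto : Tendsto (fun n : ℕ => n / 2) atTop atTop := Nat.tendsto_div_const_atTop (by norm_num)

theorem La_div : Tendsto La atTop atTop := log_tend.comp half_tendsto

theorem log_hh (i : Fin 2) : Tendsto (fun y : ℕ => Real.log (hh i y) / La y) atTop (𝓝 1) := by
  have h1 : ∀ᶠ y : ℕ in atTop, 1 ≤ Real.log (hh i y) / La y ∧ Real.log (hh i y) / La y ≤ 1 + Real.log 2 / La y := by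
    filter_upwards [eventually_ge_atTop 6] with y hy
    have hi := i.isLt
    have h2 : y / 2 ≤ hh i y := by
      unfold hh
      omega
    have h3 : hh i y ≤ 2 * (y / 2) := by
      unfold hh
      omega
    have h4 : 3 ≤ y / 2 := by omega
    have h5 : (1 : ℝ) < ((y / 2 : ℕ) : ℝ) := by
      have : 1 < y / 2 := by omega
      exact_mod_cast this
    have h6 : 0 < La y := Real.log_pos h5
    have h7 : La y ≤ Real.log (hh i y) := Real.log_le_log (by linarith) (by exact_mod_cast h2)
    have h8 : Real.log (hh i y) ≤ Real.log 2 + La y := by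
      unfold La
      rw [← Real.log_mul (by norm_num) (by linarith)]
      apply Real.log_le_log
      · have : 0 < hh i y := by omega
        exact_mod_cast this
      · exact_mod_cast h3
    constructor
    · rw [le_div_iff₀ h6]
      linarith
    · rw [div_le_iff₀ h6]
      have : (1 + Real.log 2 / La y) * La y = La y + Real.log 2 := by field_simp
      linarith
  refine tendsto_of_tendsto_of_tendsto_of_le_of_le' tendsto_const_nhds ?_ (h1.mono fun _ h => h.1) (h1.mono fun _ h => h.2)
  have h2 := (La_div.const_div_atTop (Real.log 2)).const_add 1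
  rwa [add_zero] at h2

theorem types {c : ℝ} (hc : 0 < c) : Types UU (rt2 c) La (fun _ => c) where
  disj := UU_disj
  rates := rates_UU hc
  cpos := fun _ => hc
  lim := by
    intro i
    have h1 := ((mass_lim hc).comp (hh_tendsto i)).mul (log_hh i)
    rw [mul_one] at h1
    refine h1.congr' ?_
    filter_upwards [(log_tend.comp (hh_tendsto i)).eventually_gt_atTop 0] with y hy
    simp only [Function.comp] at hy ⊢
    rw [mass_UU]
    field_simp
  div := La_div

theorem rates_tot {c : ℝ} (hc : 0 < c) : Rates (tot UU) (rt2 c) where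
  pos := by
    rintro n ⟨i, hi⟩
    exact (rates_UU hc i).pos n hi
  lt_one := by
    rintro n ⟨i, hi⟩
    exact (rates_UU hc i).lt_one n hi
  small := by
    intro ε hε
    filter_upwards [(rates_UU hc 0).small ε hε, (rates_UU hc 1).small ε hε] with n h0 h1
    rintro ⟨i, hi⟩
    fin_cases i
    · exact h0 hi
    · exact h1 hi
  div := by
    refine tendsto_atTop_mono (fun y => ?_) (rates_UU hc 0).div
    unfold mass
    apply sum_le_sum_of_subset_of_nonneg
    · intro n hn
      rw [mem_ind] at hn ⊢
      exact ⟨hn.1, 0, hn.2⟩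
    · intro n hn _
      obtain ⟨-, i, hi⟩ := mem_ind.1 hn
      exact ((rates_UU hc i).pos n hi).le

/-! ## relative entropies -/

theorem relEnt_map (p p' : ℕ → ℝ) (e : ℕ ↪ ℕ) (h : ∀ q, p' (e q) = p q) {Ω : Type*} [MeasurableSpace Ω] (μ : Measure Ω)
    (W : Ω → Set ℕ) (F : Finset ℕ) : relEnt p' μ W (F.map e) = relEnt p μ (fun ω => {q | e q ∈ W ω}) F := by
  classical
  unfold relEnt
  have h1 : (F.map e).powerset = F.powerset.map ⟨fun T => T.map e, Finset.map_injective e⟩ := by
    ext T
    rw [mem_powerset, Finset.mem_map]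
    constructor
    · intro hT
      obtain ⟨S, hS, rfl⟩ := Finset.subset_map_iff.1 hT
      exact ⟨S, mem_powerset.2 hS, rfl⟩
    · rintro ⟨S, hS, rfl⟩
      exact Finset.map_subset_map.2 (mem_powerset.1 hS)
  rw [h1, sum_map]
  apply sum_congr rfl
  intro T _
  have h2 : lawOn μ W (F.map e) (T.map e) = lawOn μ (fun ω => {q | e q ∈ W ω}) F T := by
    unfold lawOn
    congr 1
    ext ω
    simp only [Set.mem_ofPred_eq, Finset.mem_map, forall_exists_index, and_imp, forall_apply_eq_imp_iff₂,
      EmbeddingLike.apply_eq_iff_eq, exists_eq_right]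
  have h3 : bern p' (F.map e) (T.map e) = bern p F T := by
    unfold bern
    rw [prod_map]
    apply prod_congr rfl
    intro n _
    rw [h n]
    simp only [Finset.mem_map, EmbeddingLike.apply_eq_iff_eq, exists_eq_right]
  change lawOn μ W (F.map e) (T.map e) * Real.log (lawOn μ W (F.map e) (T.map e) / bern p' (F.map e) (T.map e)) = _
  rw [h2, h3]

/-- The relative entropy (nats) of the law of the elements `2 q + i` of `W`, `q < x` prime, `i < 2`, with respect to the model. -/
noncomputable def DD (c : ℝ) {Ω : Type*} [MeasurableSpace Ω] (μ : Measure Ω) (W : Ω → Set ℕ) (x : ℕ) : ℝ :=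
  relEnt (rt2 c) μ W (ind {n : ℕ | (n / 2).Prime} (2 * x))

theorem DD_eq (c : ℝ) {Ω : Type*} [MeasurableSpace Ω] (μ : Measure Ω) (W : Ω → Set ℕ) (x : ℕ) :
    DD c μ W x = relEnt (rt2 c) μ W (ind (tot UU) (2 * x)) := by
  rw [tot_UU]
  rfl

theorem rt2_range {c : ℝ} (hc : 0 < c) (y : ℕ) : ∀ n ∈ ind (tot UU) y, 0 < rt2 c n ∧ rt2 c n < 1 := by
  intro n hn
  exact ⟨(rates_tot hc).pos n (mem_ind.1 hn).2, (rates_tot hc).lt_one n (mem_ind.1 hn).2⟩

/-- the relative entropy of one of the sequences is smaller -/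
theorem marg_le {c : ℝ} (hc : 0 < c) (Ω : Type) [MeasurableSpace Ω] (μ : Measure Ω) [IsProbabilityMeasure μ] (W : Ω → Set ℕ)
    (hW : IsRandomSet W) (i : Fin 2) (x : ℕ) : relEnt (rt c) μ (fun ω => pull i.val (W ω)) (ind Pr x) ≤ DD c μ W x := by
  have h1 := relEnt_map (rt c) (rt2 c) (emb i) (rt2_emb c i) μ W (ind Pr x)
  have h2 : (fun ω => pull i.val (W ω)) = fun ω => {q | emb i q ∈ W ω} := rfl
  rw [h2, ← h1, DD_eq]
  refine Pool.Agent.Q151.LW.t_MON (rt2 c) _ _ ?_ (rt2_range hc _) Ω μ W hW
  intro n hn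
  rw [← hh_two i x, ← ind_UU, mem_ind] at hn
  exact mem_ind.2 ⟨hn.1, i, hn.2⟩

theorem pull_random {Ω : Type} [MeasurableSpace Ω] {W : Ω → Set ℕ} (hW : IsRandomSet W) (i : ℕ) :
    IsRandomSet fun ω => pull i (W ω) := fun n => hW (2 * n + i)

/-- The number of the primes below `x` in `S`. -/
noncomputable def MM (S : Set ℕ) (x : ℕ) : ℕ := cnt Pr S x

/-- the sum of the two numbers -/
theorem cnt_tot (S : Set ℕ) (y : ℕ) : (cnt (tot UU) S y : ℝ) = ∑ i, (cnt (UU i) S y : ℝ) := by
  classical
  have h1 := sum_tot UU_disj y (fun n => if n ∈ S then (1 : ℝ) else 0)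
  simp only [sum_boole] at h1
  unfold cnt
  exact h1

theorem mass_tot {c : ℝ} (y : ℕ) : mass (tot UU) (rt2 c) y = ∑ i, mass (UU i) (rt2 c) y := sum_tot UU_disj y _

/-- **The almost sure law.** -/
theorem law {c : ℝ} (hc : 0 < c) {d : ℕ → ℝ} (hm : Monotone d) (hd : ∀ n, 0 ≤ d n) :
    (∀ (Ω : Type) [MeasurableSpace Ω] (μ : Measure Ω) [IsProbabilityMeasure μ] (W : Ω → Set ℕ), IsRandomSet W →
      (∀ᶠ x : ℕ in atTop, DD c μ W x ≤ d x) →
      ∀ᵐ ω ∂μ, ∀ i : Fin 2, Tendsto (fun x : ℕ => (MM (pull i.val (W ω)) x : ℝ) / Real.log x) atTop (𝓝 c)) ↔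
    Summable (fun n : ℕ => if n.Prime then d n / (n * Real.log n) else 0) := by
  classical
  rw [← conv_iff hc hd]
  constructor
  · intro h
    by_contra hns
    -- the coded condition
    have hns' : ¬ Conv (tot UU) (rt2 c) (fun y => d (y / 2)) := by
      intro hconv
      apply hns
      unfold Conv at hconv ⊢
      have h1 := (hconv.comp_injective (i := fun q : ℕ => 2 * q) (fun a b hab => by simpa using hab)).mul_left 4
      refine h1.congr (fun q => ?_)
      simp only [Function.comp]
      have e1 : (2 * q ∈ tot UU) ↔ (q ∈ Pr) := by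
        rw [tot_UU]
        simp only [Set.mem_ofPred_eq]
        rw [Nat.mul_div_cancel_left q (by norm_num)]
      have e2 : 2 * q / 2 = q := Nat.mul_div_cancel_left q (by norm_num)
      have e3 : mass (tot UU) (rt2 c) (2 * q) = 2 * mass Pr (rt c) q := by
        rw [mass_tot]
        simp only [mass_UU, hh_two]
        rw [sum_const, card_univ, Fintype.card_fin, nsmul_eq_mul]
        norm_num
      have e4 : rt2 c (2 * q) = rt c q := by
        unfold rt2
        rw [e2]
      simp only [e1, e2, e3, e4]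
      split_ifs
      · rw [mul_pow, mul_div_assoc', mul_div_mul_comm]
        norm_num
      · ring
    obtain ⟨Ω, mΩ, μ, hμ, W, hW, h1, h2⟩ := jobs.asl (tot UU) (rt2 c) (fun y => d (y / 2)) (rates_tot hc)
      (fun a b hab => hm (Nat.div_le_div_right hab)) (fun n => hd _) hns'
    have h3 : ∀ᶠ x : ℕ in atTop, DD c μ W x ≤ d x := by
      have h4 : Tendsto (fun x : ℕ => 2 * x) atTop atTop := tendsto_id.const_mul_atTop' (by norm_num)
      filter_upwards [h4.eventually h1] with x hx
      rw [Nat.mul_div_cancel_left x (by norm_num)] at hx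
      rw [DD_eq]
      exact hx
    obtain ⟨ω, h4, h5⟩ := ((h Ω μ W hW h3).and h2).exists
    apply h5
    have hcnt : ∀ i : Fin 2, Tendsto (fun y : ℕ => (cnt (UU i) (W ω) y : ℝ) / La y) atTop (𝓝 c) := by
      intro i
      have h6 := ((h4 i).comp (hh_tendsto i)).mul (log_hh i)
      rw [mul_one] at h6
      refine h6.congr' ?_
      filter_upwards [(log_tend.comp (hh_tendsto i)).eventually_gt_atTop 0] with y hy
      simp only [Function.comp] at hy ⊢
      rw [cnt_UU]
      unfold MM
      field_simp
    have h7 : Tendsto (fun y : ℕ => (∑ i, (cnt (UU i) (W ω) y : ℝ) / La y) / ∑ i, mass (UU i) (rt2 c) y / La y) atTop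
        (𝓝 ((∑ _i : Fin 2, c) / ∑ _i : Fin 2, c)) := by
      apply Tendsto.div
      · exact tendsto_finsetSum _ fun i _ => hcnt i
      · exact tendsto_finsetSum _ fun i _ => (types hc).lim i
      · rw [sum_const, card_univ, Fintype.card_fin, nsmul_eq_mul]
        have := hc.ne'
        positivity
    rw [div_self (by
      rw [sum_const, card_univ, Fintype.card_fin, nsmul_eq_mul]
      positivity)] at h7
    refine h7.congr' ?_
    filter_upwards [La_div.eventually_gt_atTop 0] with y hy
    rw [cnt_tot, mass_tot, ← sum_div, ← sum_div, div_div_div_cancel_right₀ hy.ne']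
  · intro h Ω _ μ _ W hW hD
    rw [ae_all_iff]
    intro i
    have h1 : ∀ᶠ x : ℕ in atTop, relEnt (rt c) μ (fun ω => pull i.val (W ω)) (ind Pr x) ≤ d x := by
      filter_upwards [hD] with x hx
      exact (marg_le hc Ω μ W hW i x).trans hx
    filter_upwards [jobs.asu Pr (rt c) d (rates hc) hm hd h Ω μ (fun ω => pull i.val (W ω)) (pull_random hW i.val) h1] with ω hω
    have h2 := (tendsto_iff hc _ _).1 hω
    rwa [mul_one] at h2

end Pool.Agent.Q156.MT
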