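import Pool.Agent.Q156.MT.Low

/-!
# Random sets near models with independent elements, several types: thresholds
-/

set_option autoImplicit false

namespace Pool.Agent.Q156.MT

open Finset MeasureTheory Filter Pool.Agent.Q120.ET Pool.Agent.Q120.ME
open Pool.Agent.Q222.ME (hfun_nonneg hfun_meas)
open scoped Topology ENNReal

theorem sum_bern_avoid (p : ℕ → ℝ) (F : Finset ℕ) (Q : ℕ → Prop) [DecidablePred Q] [DecidablePred fun T : Finset ℕ => ∀ n ∈ T, ¬ Q n] :
    ∑ T ∈ F.powerset with ∀ n ∈ T, ¬ Q n, bern p F T = ∏ n ∈ F, if Q n then 1 - p n else 1 := by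
  have h1 := Finset.prod_add (fun n => if Q n then 0 else p n) (fun n => 1 - p n) F
  have h2 : ∏ n ∈ F, ((if Q n then 0 else p n) + (1 - p n)) =
      ∏ n ∈ F, if Q n then 1 - p n else 1 := by
    refine Finset.prod_congr rfl (fun n _ => ?_)
    split_ifs <;> ring
  rw [← h2, h1, Finset.sum_filter]
  refine Finset.sum_congr rfl (fun T hT => ?_)
  have hT := mem_powerset.1 hT
  split_ifs with h
  · rw [Pool.Agent.Q24.ME.bern_eq p hT]
    congr 1
    exact Finset.prod_congr rfl (fun n hn => by rw [if_neg (h n hn)])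
  · push Not at h
    obtain ⟨n, hn, hN⟩ := h
    rw [Finset.prod_eq_zero hn, zero_mul]
    rw [if_pos hN]

theorem avoid_le (p : ℕ → ℝ) (F : Finset ℕ) (Q : ℕ → Prop) [DecidablePred Q] (hp : ∀ n ∈ F, p n < 1) :
    ∏ n ∈ F, (if Q n then 1 - p n else 1) ≤ Real.exp (-∑ n ∈ F with Q n, p n) := by
  rw [Finset.sum_filter, ← Finset.sum_neg_distrib, Real.exp_sum]
  refine Finset.prod_le_prod (fun n hn => ?_) (fun n hn => ?_)
  · split_ifs
    · linarith [hp n hn]
    · norm_num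
  · split_ifs
    · exact Real.one_sub_le_exp_neg _
    · simp

variable {ι : Type} [Fintype ι] [DecidableEq ι]

theorem mass_part {U : ι → Set ℕ} {p : ℕ → ℝ} (hd : ∀ i j n, n ∈ U i → n ∈ U j → i = j) (S : Finset ι) {N x : ℕ} (hN : N ≤ x)
    [DecidablePred fun n : ℕ => N ≤ n ∧ ∃ i ∈ S, n ∈ U i] :
    ∑ n ∈ ind (tot U) x with (N ≤ n ∧ ∃ i ∈ S, n ∈ U i), p n = ∑ i ∈ S, (mass (U i) p x - mass (U i) p N) := by
  rw [sum_filter, sum_tot hd, ← sum_subset (subset_univ S)]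
  · apply sum_congr rfl
    intro i hi
    rw [← Pool.Agent.Q24.ME.mass_sub (U i) p hN, sum_filter]
    apply sum_congr rfl
    intro n hn
    have h1 := (mem_ind.1 hn).2
    by_cases h : N ≤ n
    · rw [if_pos ⟨h, i, hi, h1⟩, if_pos (not_lt.2 h)]
    · rw [if_neg (fun h2 => h h2.1), if_neg (not_not.2 (not_le.1 h))]
  · intro i _ hi
    apply sum_eq_zero
    intro n hn
    rw [if_neg]
    rintro ⟨-, j, hj, h2⟩
    rw [hd j i n h2 (mem_ind.1 hn).2] at hj
    exact hi hj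

/-- The probability that for some `S ∈ P` no type in `S` has infinitely many elements. -/
theorem prob_le {U : ι → Set ℕ} {p Λ : ℕ → ℝ} {c : ι → ℝ} (hT : Types U p Λ c) (P : Finset (Finset ι)) (hP : P.Nonempty)
    {κ t : ℝ} (hκ0 : 0 < κ) (hκ : ∀ S ∈ P, κ ≤ ∑ i ∈ S, c i)
    (Ω : Type) [MeasurableSpace Ω] (μ : Measure Ω) [IsProbabilityMeasure μ] (A : Ω → Set ℕ) (hA : IsRandomSet A)
    (hD : ∀ ε : ℝ, 0 < ε → ∃ᶠ x : ℕ in atTop, relEnt p μ A (ind (tot U) x) ≤ (κ * t + ε) * Λ x) :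
    μ.real {ω | ∃ S ∈ P, ∀ i ∈ S, (A ω ∩ U i).Finite} ≤ t := by
  classical
  have hEVT : J_EVT := Pool.Agent.Q184.ME.t_EVT Pool.Agent.Q26.ME.t_DV
  set E : ℕ → Finset ℕ → Prop := fun N T => ∃ S ∈ P, ∀ n ∈ T, ¬ (N ≤ n ∧ ∃ i ∈ S, n ∈ U i) with hEdef
  have hN : ∀ N : ℕ, μ.real {ω | ∃ S ∈ P, ∀ n ∈ A ω, ¬ (N ≤ n ∧ ∃ i ∈ S, n ∈ U i)} ≤ t := by
    intro N
    by_contra hlt
    rw [not_le] at hlt
    obtain ⟨R, hR⟩ : ∃ R : ℝ, R = μ.real {ω | ∃ S ∈ P, ∀ n ∈ A ω, ¬ (N ≤ n ∧ ∃ i ∈ S, n ∈ U i)} := ⟨_, rfl⟩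
    rw [← hR] at hlt
    have hR1 : R ≤ 1 := by
      rw [hR]
      exact measureReal_le_one
    have hR0 : 0 ≤ R := by
      rw [hR]
      exact measureReal_nonneg
    obtain ⟨ε, hε⟩ : ∃ ε : ℝ, ε = κ * (R - t) / 4 := ⟨_, rfl⟩
    have hε0 : 0 < ε := by
      rw [hε]
      have : 0 < R - t := by linarith
      positivity
    have hPc : (1 : ℝ) ≤ P.card := by exact_mod_cast hP.card_pos
    have hPl : 0 ≤ Real.log P.card := Real.log_nonneg hPc
    have hmassS : ∀ᶠ x : ℕ in atTop, ∀ S ∈ P, (κ - ε) * Λ x ≤ ∑ i ∈ S, (mass (U i) p x - mass (U i) p N) := by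
      rw [Finset.eventually_all]
      intro S hS
      have h1 : Tendsto (fun x : ℕ => ∑ i ∈ S, (mass (U i) p x - mass (U i) p N) / Λ x) atTop (𝓝 (∑ i ∈ S, c i)) := by
        apply tendsto_finsetSum
        intro i _
        have h2 := (hT.lim i).sub (hT.div.const_div_atTop (mass (U i) p N))
        rw [sub_zero] at h2
        exact h2.congr fun x => (sub_div _ _ _).symm
      filter_upwards [h1.eventually (eventually_gt_nhds (show κ - ε < ∑ i ∈ S, c i by linarith [hκ S hS])),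
        hT.div.eventually_gt_atTop 0] with x h2 h3
      rw [← sum_div, lt_div_iff₀ h3] at h2
      exact h2.le
    have hbig := hT.div.eventually_gt_atTop ((Real.log 2 + Real.log P.card) / ε)
    obtain ⟨x, hx1, hx2, hx3, hx4, hx5⟩ := ((hD ε hε0).and_eventually (hbig.and ((eventually_ge_atTop N).and
      (hmassS.and (hT.div.eventually_gt_atTop 0))))).exists
    have hF : ∀ n ∈ ind (tot U) x, 0 < p n ∧ p n < 1 := by
      intro n hn
      obtain ⟨-, i, hi⟩ := mem_ind.1 hn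
      exact ⟨(hT.rates i).pos n hi, (hT.rates i).lt_one n hi⟩
    have h1 := (hEVT p (ind (tot U) x) hF Ω μ A hA).2 (E N) ((κ - ε) * Λ x - Real.log P.card) (by
      have h2 : ∑ T ∈ (ind (tot U) x).powerset with E N T, bern p (ind (tot U) x) T ≤
          ∑ S ∈ P, ∑ T ∈ (ind (tot U) x).powerset with (∀ n ∈ T, ¬ (N ≤ n ∧ ∃ i ∈ S, n ∈ U i)), bern p (ind (tot U) x) T := by
        simp only [sum_filter]
        rw [sum_comm]
        apply sum_le_sum
        intro T _
        have hb := (Pool.Agent.Q26.ME.bern_pos hF T).le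
        by_cases hE : E N T
        · rw [if_pos hE]
          obtain ⟨S, hS, hST⟩ := hE
          have h3 := single_le_sum (f := fun S => if (∀ n ∈ T, ¬ (N ≤ n ∧ ∃ i ∈ S, n ∈ U i)) then bern p (ind (tot U) x) T else 0)
            (fun S _ => by
              split_ifs
              · exact hb
              · exact le_rfl) hS
          rw [if_pos hST] at h3
          exact h3
        · rw [if_neg hE]
          apply sum_nonneg
          intro S _
          split_ifs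
          · exact hb
          · exact le_rfl
      refine h2.trans ?_
      have h3 : ∀ S ∈ P, ∑ T ∈ (ind (tot U) x).powerset with (∀ n ∈ T, ¬ (N ≤ n ∧ ∃ i ∈ S, n ∈ U i)), bern p (ind (tot U) x) T ≤
          Real.exp (-((κ - ε) * Λ x)) := by
        intro S hS
        rw [sum_bern_avoid p (ind (tot U) x) (fun n : ℕ => N ≤ n ∧ ∃ i ∈ S, n ∈ U i)]
        refine (avoid_le p _ _ fun n hn => (hF n hn).2).trans ?_
        rw [mass_part hT.disj S hx3]
        apply Real.exp_le_exp.2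
        linarith [hx4 S hS]
      refine (sum_le_sum h3).trans ?_
      have h4 : Real.exp (-((κ - ε) * Λ x - Real.log P.card)) = P.card * Real.exp (-((κ - ε) * Λ x)) := by
        have e : -((κ - ε) * Λ x - Real.log P.card) = Real.log P.card + -((κ - ε) * Λ x) := by ring
        rw [e, Real.exp_add, Real.exp_log (by linarith)]
      rw [sum_const, nsmul_eq_mul, h4])
    have h2 : R ≤ μ.real {ω | E N (tr A (ind (tot U) x) ω)} := by
      rw [hR]
      refine measureReal_mono ?_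
      rintro ω ⟨S, hS, h⟩
      refine ⟨S, hS, fun n hn => ?_⟩
      exact h n (mem_tr.1 hn).2
    -- the case of a nonpositive exponent
    have hpos : 0 ≤ (κ - ε) * Λ x - Real.log P.card ∨ (κ - ε) * Λ x - Real.log P.card < 0 := le_or_gt _ _
    have h6 : (Real.log 2 + Real.log P.card) < ε * Λ x := by
      rw [div_lt_iff₀ hε0] at hx2
      linarith
    have h7 : R * ((κ - ε) * Λ x - Real.log P.card) ≤ (κ * t + ε) * Λ x + Real.log 2 := by
      rcases hpos with hpos | hpos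
      · have := mul_le_mul_of_nonneg_right h2 hpos
        linarith
      · have h8 := (hEVT p (ind (tot U) x) hF Ω μ A hA).1
        have h9 : R * ((κ - ε) * Λ x - Real.log P.card) ≤ 0 := mul_nonpos_of_nonneg_of_nonpos hR0 hpos.le
        have := Real.log_pos (show (1 : ℝ) < 2 by norm_num)
        linarith
    have h8 : R * κ * Λ x ≤ (κ * t + 2 * ε) * Λ x + Real.log 2 + Real.log P.card := by
      have h9 : R * (ε * Λ x) ≤ ε * Λ x := by
        have : 0 ≤ ε * Λ x := by positivity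
        nlinarith
      have h10 : R * Real.log P.card ≤ Real.log P.card := by nlinarith
      nlinarith
    have h9 : R * κ * Λ x < (κ * t + 3 * ε) * Λ x := by linarith
    have h10 : R * κ < κ * t + 3 * ε := lt_of_mul_lt_mul_right h9 hx5.le
    rw [hε] at h10
    have h11 : κ * (R - t) / 4 < 0 := by linarith
    have h12 : 0 < κ * (R - t) / 4 := by
      rw [← hε]
      exact hε0
    linarith
  have h1 : {ω | ∃ S ∈ P, ∀ i ∈ S, (A ω ∩ U i).Finite} = ⋃ N : ℕ, {ω | ∃ S ∈ P, ∀ n ∈ A ω, ¬ (N ≤ n ∧ ∃ i ∈ S, n ∈ U i)} := by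
    ext ω
    simp only [Set.mem_iUnion, Set.mem_ofPred_eq]
    constructor
    · rintro ⟨S, hS, h⟩
      have hfin : (⋃ i ∈ S, (A ω ∩ U i)).Finite := Set.Finite.biUnion S.finite_toSet h
      obtain ⟨N, hN⟩ := hfin.bddAbove
      refine ⟨N + 1, S, hS, ?_⟩
      rintro n hn ⟨h1, i, hi, h2⟩
      have h3 : n ∈ ⋃ i ∈ S, (A ω ∩ U i) := by
        simp only [Set.mem_iUnion]
        exact ⟨i, hi, hn, h2⟩
      have := hN h3
      omega
    · rintro ⟨N, S, hS, h⟩
      refine ⟨S, hS, fun i hi => ?_⟩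
      apply (Set.finite_lt_nat N).subset
      rintro n ⟨h1, h2⟩
      by_contra h3
      exact h n h1 ⟨not_lt.1 h3, i, hi, h2⟩
  have hmono : Monotone (fun N : ℕ => {ω | ∃ S ∈ P, ∀ n ∈ A ω, ¬ (N ≤ n ∧ ∃ i ∈ S, n ∈ U i)}) := by
    rintro N M hNM ω ⟨S, hS, h⟩
    exact ⟨S, hS, fun n hn h2 => h n hn ⟨hNM.trans h2.1, h2.2⟩⟩
  have h2 := tendsto_measure_iUnion_atTop (μ := μ) hmono
  have h3 : Tendsto (fun N : ℕ => μ.real {ω | ∃ S ∈ P, ∀ n ∈ A ω, ¬ (N ≤ n ∧ ∃ i ∈ S, n ∈ U i)}) atTop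
      (𝓝 (μ.real (⋃ N : ℕ, {ω | ∃ S ∈ P, ∀ n ∈ A ω, ¬ (N ≤ n ∧ ∃ i ∈ S, n ∈ U i)}))) := by
    have := (ENNReal.tendsto_toReal (measure_ne_top μ (⋃ N : ℕ, {ω | ∃ S ∈ P, ∀ n ∈ A ω, ¬ (N ≤ n ∧ ∃ i ∈ S, n ∈ U i)}))).comp h2
    exact this
  rw [h1]
  exact le_of_tendsto' h3 hN

/-- The extremal random sets. -/
theorem exists_max {U : ι → Set ℕ} {p Λ : ℕ → ℝ} {c : ι → ℝ} (hT : Types U p Λ c) (S : Finset ι) {s : ℝ} (hs0 : 0 ≤ s) (hs1 : s ≤ 1) :
    ∃ (Ω : Type) (_ : MeasurableSpace Ω) (μ : Measure Ω) (_ : IsProbabilityMeasure μ) (A : Ω → Set ℕ), IsRandomSet A ∧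
      (∀ ε : ℝ, 0 < ε → ∀ᶠ x : ℕ in atTop, relEnt p μ A (ind (tot U) x) ≤ ((∑ i ∈ S, c i) * s + ε) * Λ x) ∧
      s ≤ μ.real {ω | ∀ i ∈ S, (A ω ∩ U i).Finite} := by
  classical
  have hc := hT.cpos
  obtain ⟨a0, ha0⟩ : ∃ a0 : ι → ℝ, a0 = fun i => if i ∈ S then 0 else 1 := ⟨_, rfl⟩
  obtain ⟨ν, hν⟩ : ∃ ν : Measure (ι → ℝ), ν = ENNReal.ofReal s • Measure.dirac a0 + ENNReal.ofReal (1 - s) • Measure.dirac (fun _ => 1) := ⟨_, rfl⟩
  haveI : IsProbabilityMeasure ν := ⟨by
    rw [hν]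
    simp only [Measure.coe_add, Measure.coe_smul, Pi.add_apply, Pi.smul_apply, measure_univ, smul_eq_mul, mul_one]
    rw [← ENNReal.ofReal_add hs0 (by linarith)]
    simp⟩
  have hmset : MeasurableSet {a : ι → ℝ | ∃ i, a i < 0} := by
    have h1 : {a : ι → ℝ | ∃ i, a i < 0} = ⋃ i, {a : ι → ℝ | a i < 0} := by
      ext a
      simp
    rw [h1]
    exact MeasurableSet.iUnion fun i => measurableSet_lt (measurable_pi_apply i) measurable_const
  have hS0 : 0 ≤ ∑ i ∈ S, c i := sum_nonneg fun i _ => (hc i).le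
  have hmeas : Measurable fun a : ι → ℝ => ENNReal.ofReal (∑ i, c i * hfun (a i)) := by
    apply Measurable.ennreal_ofReal
    apply Finset.measurable_fun_sum
    intro i _
    exact (hfun_meas.comp (measurable_pi_apply i)).const_mul _
  have h0 : hfun 0 = 1 := by simp [hfun]
  have h1 : hfun 1 = 0 := by simp [hfun]
  obtain ⟨Ω, m, μ, hμ, A, L, hA, hL, hmap, hrel, -, hfin⟩ := low hT (δ := (∑ i ∈ S, c i) * s) (by positivity) ν (by
    rw [hν, Measure.add_apply, Measure.smul_apply, Measure.smul_apply, Measure.dirac_apply' _ hmset, Measure.dirac_apply' _ hmset,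
      Set.indicator_of_notMem, Set.indicator_of_notMem]
    · simp
    · rintro ⟨i, hi⟩
      norm_num at hi
    · rintro ⟨i, hi⟩
      rw [ha0] at hi
      simp only at hi
      split_ifs at hi <;> norm_num at hi) (by
    rw [hν, lintegral_add_measure, lintegral_smul_measure, lintegral_smul_measure, lintegral_dirac' _ hmeas, lintegral_dirac' _ hmeas]
    have h2 : ∑ i, c i * hfun (a0 i) = ∑ i ∈ S, c i := by
      rw [← sum_filter_add_sum_filter_not univ (fun i => i ∈ S)]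
      have h3 : ∑ i with i ∈ S, c i * hfun (a0 i) = ∑ i ∈ S, c i := by
        rw [filter_mem_eq_inter, univ_inter]
        apply sum_congr rfl
        intro i hi
        rw [ha0]
        simp only
        rw [if_pos hi, h0, mul_one]
      have h4 : ∑ i with i ∉ S, c i * hfun (a0 i) = 0 := by
        apply sum_eq_zero
        intro i hi
        rw [ha0]
        simp only
        rw [if_neg (mem_filter.1 hi).2, h1, mul_zero]
      rw [h3, h4, add_zero]
    have h5 : ∑ i : ι, c i * hfun 1 = 0 := by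
      apply sum_eq_zero
      intro i _
      rw [h1, mul_zero]
    rw [h2, h5]
    simp only [ENNReal.ofReal_zero, smul_eq_mul, mul_zero, add_zero]
    rw [← ENNReal.ofReal_mul hs0, mul_comm])
  refine ⟨Ω, m, μ, hμ, A, hA, hrel, ?_⟩
  have hms : MeasurableSet {a : ι → ℝ | ∀ i ∈ S, a i = 0} := by
    have h1 : {a : ι → ℝ | ∀ i ∈ S, a i = 0} = ⋂ i ∈ S, {a : ι → ℝ | a i = 0} := by
      ext a
      simp
    rw [h1]
    exact Finset.measurableSet_biInter _ fun i _ => measurableSet_eq_fun (measurable_pi_apply i) measurable_const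
  have h2 : s ≤ μ.real (L ⁻¹' {a | ∀ i ∈ S, a i = 0}) := by
    rw [measureReal_def, ← Measure.map_apply hL hms, hmap, hν, Measure.add_apply, Measure.smul_apply, Measure.smul_apply,
      Measure.dirac_apply' _ hms, Set.indicator_of_mem]
    · simp only [Pi.one_apply, smul_eq_mul, mul_one]
      rw [ENNReal.toReal_add ENNReal.ofReal_ne_top (by
        refine ENNReal.mul_ne_top ENNReal.ofReal_ne_top ?_
        exact measure_ne_top _ _), ENNReal.toReal_ofReal hs0]
      have := ENNReal.toReal_nonneg (a := ENNReal.ofReal (1 - s) * (Measure.dirac (fun _ => (1 : ℝ)) : Measure (ι → ℝ)) {a | ∀ i ∈ S, a i = 0})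
      linarith
    · intro i hi
      rw [ha0]
      simp only
      rw [if_pos hi]
  refine h2.trans (ENNReal.toReal_mono (measure_ne_top _ _) (measure_mono_ae ?_))
  filter_upwards [hfin] with ω hω h3
  intro i hi
  obtain ⟨N, hN⟩ := hω i (h3 i hi)
  apply (Set.finite_lt_nat N).subset
  rintro n ⟨h1, h2⟩
  exact hN n h1 h2

/-- The exact threshold. -/
theorem threshold {U : ι → Set ℕ} {p Λ : ℕ → ℝ} {c : ι → ℝ} (hT : Types U p Λ c) (P : Finset (Finset ι)) {S₀ : Finset ι} (hS₀ : S₀ ∈ P)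
    {κ : ℝ} (hκ0 : 0 < κ) (hκ : ∀ S ∈ P, κ ≤ ∑ i ∈ S, c i) (hκS : ∑ i ∈ S₀, c i = κ) (y : ℕ → ℕ) (hy : Tendsto y atTop atTop)
    (d : ℕ → ℝ) {t : ℝ} (ht : 0 ≤ t) (ht1 : t < 1) :
    (∀ (Ω : Type) [MeasurableSpace Ω] (μ : Measure Ω) [IsProbabilityMeasure μ] (A : Ω → Set ℕ), IsRandomSet A →
      (∀ᶠ x : ℕ in atTop, relEnt p μ A (ind (tot U) (y x)) ≤ d x) → μ.real {ω | ∃ S ∈ P, ∀ i ∈ S, (A ω ∩ U i).Finite} ≤ t) ↔
    ∀ ε : ℝ, 0 < ε → ∃ᶠ x : ℕ in atTop, d x ≤ (κ * t + ε) * Λ (y x) := by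
  constructor
  · intro h
    by_contra hne
    push Not at hne
    obtain ⟨ε, hε, hev⟩ := hne
    obtain ⟨s, hs⟩ : ∃ s : ℝ, s = min ((1 + t) / 2) (t + ε / (2 * κ)) := ⟨_, rfl⟩
    have hε2 : 0 < ε / (2 * κ) := by positivity
    have hts : t < s := by
      rw [hs]
      exact lt_min (by linarith) (by linarith)
    have hs1 : s < 1 := by
      rw [hs]
      exact (min_le_left _ _).trans_lt (by linarith)
    have hs2 : κ * s ≤ κ * t + ε / 2 := by
      have h1 : s ≤ t + ε / (2 * κ) := by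
        rw [hs]
        exact min_le_right _ _
      have h2 := mul_le_mul_of_nonneg_left h1 hκ0.le
      have h3 : κ * (t + ε / (2 * κ)) = κ * t + ε / 2 := by
        field_simp
      linarith
    obtain ⟨Ω, m, μ, hμ, A, hA, hrel, hfin⟩ := exists_max hT S₀ (s := s) (by linarith) hs1.le
    rw [hκS] at hrel
    have h1 : ∀ᶠ x : ℕ in atTop, relEnt p μ A (ind (tot U) (y x)) ≤ d x := by
      filter_upwards [hy.eventually (hrel (ε / 2) (by positivity)), hev, hy.eventually (hT.div.eventually_gt_atTop 0)] with x h2 h3 h4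
      refine h2.trans (le_trans ?_ h3.le)
      apply mul_le_mul_of_nonneg_right _ h4.le
      linarith
    have h2 := h Ω μ A hA h1
    have h3 : μ.real {ω | ∀ i ∈ S₀, (A ω ∩ U i).Finite} ≤ μ.real {ω | ∃ S ∈ P, ∀ i ∈ S, (A ω ∩ U i).Finite} :=
      measureReal_mono fun ω hω => ⟨S₀, hS₀, hω⟩
    linarith
  · intro h Ω _ μ _ A hA hD
    refine prob_le hT P ⟨S₀, hS₀⟩ hκ0 hκ Ω μ A hA (fun ε hε => ?_)
    have h1 : ∃ᶠ x : ℕ in atTop, relEnt p μ A (ind (tot U) (y x)) ≤ (κ * t + ε) * Λ (y x) :=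
      ((h ε hε).and_eventually hD).mono (fun x hx => hx.2.trans hx.1)
    exact hy.frequently h1

end Pool.Agent.Q156.MT
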