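import Pool.Agent.Q120.ME.General
import Pool.Agent.Q151.LW.Mon

/-!
# Random sets near models with independent elements, several types: upper bound for the limit laws
-/

set_option autoImplicit false

namespace Pool.Agent.Q156.MT

open Finset MeasureTheory Filter Pool.Agent.Q120.ET Pool.Agent.Q120.ME
open Pool.Agent.Q222.ME (th phi phi_nonneg phi_mono phi_cont phi_exp bern_nonneg lint_tr hfun_le)
open scoped Topology ENNReal

/-- the generating function -/
theorem gen_fun (p θ : ℕ → ℝ) (F : Finset ℕ) (hp : ∀ n ∈ F, 0 ≤ p n ∧ p n ≤ 1) :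
    ∑ T ∈ F.powerset, bern p F T * Real.exp (∑ n ∈ T, θ n) ≤ Real.exp (∑ n ∈ F, (Real.exp (θ n) - 1) * p n) := by
  have h1 : ∑ T ∈ F.powerset, bern p F T * Real.exp (∑ n ∈ T, θ n) = ∏ n ∈ F, (p n * Real.exp (θ n) + (1 - p n)) := by
    rw [prod_add]
    refine sum_congr rfl (fun T hT => ?_)
    rw [Pool.Agent.Q24.ME.bern_eq p (mem_powerset.1 hT), Real.exp_sum, prod_mul_distrib]
    ring
  rw [h1, Real.exp_sum]
  refine prod_le_prod (fun n hn => ?_) (fun n hn => ?_)
  · have := Real.exp_pos (θ n)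
    have h2 := hp n hn
    nlinarith [mul_nonneg h2.1 this.le]
  · have := Real.add_one_le_exp ((Real.exp (θ n) - 1) * p n)
    linarith

variable {ι : Type} [Fintype ι] [DecidableEq ι]

/-- all elements -/
def tot (U : ι → Set ℕ) : Set ℕ := {n | ∃ i, n ∈ U i}

/-- Disjoint sets `U i` with rates `p`, whose masses are asymptotically `c i * Λ`, `c i > 0`. -/
structure Types (U : ι → Set ℕ) (p : ℕ → ℝ) (Λ : ℕ → ℝ) (c : ι → ℝ) : Prop where
  disj : ∀ i j n, n ∈ U i → n ∈ U j → i = j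
  rates : ∀ i, Rates (U i) p
  cpos : ∀ i, 0 < c i
  lim : ∀ i, Tendsto (fun x : ℕ => mass (U i) p x / Λ x) atTop (𝓝 (c i))
  div : Tendsto Λ atTop atTop

theorem mem_ind {U : Set ℕ} {x n : ℕ} : n ∈ ind U x ↔ n < x ∧ n ∈ U := Pool.Agent.Q222.ME.mem_ind

theorem sum_tot {U : ι → Set ℕ} (hd : ∀ i j n, n ∈ U i → n ∈ U j → i = j) (x : ℕ) (f : ℕ → ℝ) :
    ∑ n ∈ ind (tot U) x, f n = ∑ i, ∑ n ∈ ind (U i) x, f n := by
  classical
  rw [← sum_biUnion]
  · apply sum_congr _ fun _ _ => rfl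
    ext n
    simp only [mem_ind, mem_biUnion, mem_univ, true_and, tot, Set.mem_ofPred_eq]
    constructor
    · rintro ⟨h1, i, h2⟩
      exact ⟨i, h1, h2⟩
    · rintro ⟨i, h1, h2⟩
      exact ⟨h1, i, h2⟩
  · intro i _ j _ hij
    rw [Function.onFun, Finset.disjoint_left]
    intro n h1 h2
    exact hij (hd i j n (mem_ind.1 h1).2 (mem_ind.1 h2).2)

open Classical in
/-- the number of the elements of type `i` -/
noncomputable def num (U : ι → Set ℕ) (i : ι) (T : Finset ℕ) : ℕ := (T.filter (fun n => n ∈ U i)).card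

theorem cnt_eq (U : ι → Set ℕ) (i : ι) {Ω : Type*} [MeasurableSpace Ω] (A : Ω → Set ℕ) (x : ℕ) (ω : Ω) :
    cnt (U i) (A ω) x = num U i (tr A (ind (tot U) x) ω) := by
  classical
  unfold cnt num
  congr 1
  ext n
  rw [mem_filter, mem_filter, mem_tr, mem_ind, mem_ind]
  constructor
  · rintro ⟨⟨h1, h2⟩, h3⟩
    exact ⟨⟨⟨h1, i, h2⟩, h3⟩, h2⟩
  · rintro ⟨⟨⟨h1, _⟩, h3⟩, h2⟩
    exact ⟨⟨h1, h2⟩, h3⟩

/-- `0` and the dense sequence -/
noncomputable def th' : ℕ → ℝ
  | 0 => 0
  | j + 1 => th j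

theorem phi_exp' (r : ℕ) (m t : ℝ) (hm : 0 < m) : Real.exp (m * phi r (t / m)) ≤
    ∑ j ∈ range (r + 1), Real.exp (th' j * t - (Real.exp (th' j) - 1) * m) := by
  have h1 := phi_exp r m (t / m)
  have h2 : m * (t / m) = t := by field_simp
  rw [h2] at h1
  rw [sum_range_succ']
  simp only [th', zero_mul, Real.exp_zero, sub_self]
  linarith

open Classical in
/-- the exponents -/
noncomputable def ex (U : ι → Set ℕ) (J : ι → ℕ) (n : ℕ) : ℝ := ∑ i, if n ∈ U i then th' (J i) else 0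

theorem ex_eq {U : ι → Set ℕ} (hd : ∀ i j n, n ∈ U i → n ∈ U j → i = j) (J : ι → ℕ) {n : ℕ} {i : ι} (h : n ∈ U i) :
    ex U J n = th' (J i) := by
  classical
  unfold ex
  rw [sum_eq_single i]
  · rw [if_pos h]
  · intro j _ hj
    rw [if_neg]
    intro h2
    exact hj (hd j i n h2 h)
  · intro h2
    exact absurd (mem_univ i) h2

theorem sum_ex (U : ι → Set ℕ) (J : ι → ℕ) (T : Finset ℕ) :
    ∑ n ∈ T, ex U J n = ∑ i, th' (J i) * (num U i T : ℝ) := by
  classical
  unfold ex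
  rw [sum_comm]
  apply sum_congr rfl
  intro i _
  rw [← sum_filter, sum_const, nsmul_eq_mul, mul_comm]
  rfl

theorem bound_one {U : ι → Set ℕ} {p : ℕ → ℝ} (hd : ∀ i j n, n ∈ U i → n ∈ U j → i = j) (x : ℕ)
    (hp : ∀ n ∈ ind (tot U) x, 0 ≤ p n ∧ p n ≤ 1) (J : ι → ℕ) :
    ∑ T ∈ (ind (tot U) x).powerset, bern p (ind (tot U) x) T *
      ∏ i, Real.exp (th' (J i) * (num U i T : ℝ) - (Real.exp (th' (J i)) - 1) * mass (U i) p x) ≤ 1 := by
  have h1 : ∀ T : Finset ℕ, ∏ i, Real.exp (th' (J i) * (num U i T : ℝ) - (Real.exp (th' (J i)) - 1) * mass (U i) p x) =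
      Real.exp (-∑ i, (Real.exp (th' (J i)) - 1) * mass (U i) p x) * Real.exp (∑ n ∈ T, ex U J n) := by
    intro T
    rw [← Real.exp_sum, ← Real.exp_add, sum_sub_distrib, sum_ex]
    congr 1
    ring
  have h2 : ∑ n ∈ ind (tot U) x, (Real.exp (ex U J n) - 1) * p n = ∑ i, (Real.exp (th' (J i)) - 1) * mass (U i) p x := by
    rw [sum_tot hd]
    apply sum_congr rfl
    intro i _
    unfold mass
    rw [mul_sum]
    apply sum_congr rfl
    intro n hn
    rw [ex_eq hd J (mem_ind.1 hn).2]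
  have h3 := gen_fun p (ex U J) (ind (tot U) x) hp
  rw [h2] at h3
  calc _ = Real.exp (-∑ i, (Real.exp (th' (J i)) - 1) * mass (U i) p x) *
        ∑ T ∈ (ind (tot U) x).powerset, bern p (ind (tot U) x) T * Real.exp (∑ n ∈ T, ex U J n) := by
        rw [mul_sum]
        apply sum_congr rfl
        intro T _
        rw [h1 T]
        ring
    _ ≤ Real.exp (-∑ i, (Real.exp (th' (J i)) - 1) * mass (U i) p x) *
        Real.exp (∑ i, (Real.exp (th' (J i)) - 1) * mass (U i) p x) := mul_le_mul_of_nonneg_left h3 (Real.exp_pos _).le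
    _ = 1 := by
        rw [← Real.exp_add]
        simp

theorem upl_fin {U : ι → Set ℕ} {p : ℕ → ℝ} (hd : ∀ i j n, n ∈ U i → n ∈ U j → i = j) (x : ℕ)
    (hp : ∀ n ∈ ind (tot U) x, 0 < p n ∧ p n < 1) {Ω : Type} [MeasurableSpace Ω] (μ : Measure Ω) [IsProbabilityMeasure μ]
    {A : Ω → Set ℕ} (hA : IsRandomSet A) (r : ℕ) (hm : ∀ i, 0 < mass (U i) p x) :
    ∑ T ∈ (ind (tot U) x).powerset, lawOn μ A (ind (tot U) x) T * ∑ i, mass (U i) p x * phi r (num U i T / mass (U i) p x) ≤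
      relEnt p μ A (ind (tot U) x) + Fintype.card ι * Real.log (r + 1) := by
  classical
  have hp' : ∀ n ∈ ind (tot U) x, 0 ≤ p n ∧ p n ≤ 1 := fun n hn => ⟨(hp n hn).1.le, (hp n hn).2.le⟩
  refine (Pool.Agent.Q26.ME.t_DV p (ind (tot U) x) hp Ω μ A hA (fun T => ∑ i, mass (U i) p x * phi r (num U i T / mass (U i) p x))).trans ?_
  have h3 : 0 < ∑ T ∈ (ind (tot U) x).powerset, bern p (ind (tot U) x) T *
      Real.exp (∑ i, mass (U i) p x * phi r (num U i T / mass (U i) p x)) :=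
    sum_pos (fun T _ => mul_pos (Pool.Agent.Q26.ME.bern_pos hp T) (Real.exp_pos _)) ⟨∅, by simp⟩
  have h2 : ∑ T ∈ (ind (tot U) x).powerset, bern p (ind (tot U) x) T *
      Real.exp (∑ i, mass (U i) p x * phi r (num U i T / mass (U i) p x)) ≤ ((r : ℝ) + 1) ^ Fintype.card ι := by
    calc _ ≤ ∑ T ∈ (ind (tot U) x).powerset, ∑ J ∈ Fintype.piFinset (fun _ : ι => range (r + 1)), bern p (ind (tot U) x) T *
          ∏ i, Real.exp (th' (J i) * (num U i T : ℝ) - (Real.exp (th' (J i)) - 1) * mass (U i) p x) := by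
          apply sum_le_sum
          intro T _
          rw [← mul_sum]
          apply mul_le_mul_of_nonneg_left _ (bern_nonneg hp' T)
          rw [Real.exp_sum]
          have hps := Finset.prod_univ_sum (fun _ : ι => range (r + 1)) (fun (i : ι) (j : ℕ) =>
            Real.exp (th' j * (num U i T : ℝ) - (Real.exp (th' j) - 1) * mass (U i) p x))
          rw [← hps]
          apply Finset.prod_le_prod
          · intro i _
            exact (Real.exp_pos _).le
          · intro i _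
            exact phi_exp' r _ _ (hm i)
      _ = ∑ J ∈ Fintype.piFinset (fun _ : ι => range (r + 1)), ∑ T ∈ (ind (tot U) x).powerset, bern p (ind (tot U) x) T *
          ∏ i, Real.exp (th' (J i) * (num U i T : ℝ) - (Real.exp (th' (J i)) - 1) * mass (U i) p x) := sum_comm
      _ ≤ ∑ J ∈ Fintype.piFinset (fun _ : ι => range (r + 1)), (1 : ℝ) := sum_le_sum fun J _ => bound_one hd x hp' J
      _ = ((r : ℝ) + 1) ^ Fintype.card ι := by
          rw [sum_const, Fintype.card_piFinset, nsmul_eq_mul, mul_one]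
          simp
  have h4 := Real.log_le_log h3 h2
  rw [Real.log_pow] at h4
  linarith

theorem upl {U : ι → Set ℕ} {p Λ : ℕ → ℝ} {c : ι → ℝ} (hT : Types U p Λ c) {δ : ℝ} (hδ : 0 ≤ δ)
    (Ω : Type) [MeasurableSpace Ω] (μ : Measure Ω) [IsProbabilityMeasure μ] (A : Ω → Set ℕ) (hA : IsRandomSet A)
    (hrel : ∀ ε : ℝ, 0 < ε → ∀ᶠ x : ℕ in atTop, relEnt p μ A (ind (tot U) x) ≤ (δ + ε) * Λ x)
    (L : Ω → ι → ℝ) (hL : Measurable L)
    (hlim : ∀ᵐ ω ∂μ, ∀ i, Tendsto (fun x : ℕ => (cnt (U i) (A ω) x : ℝ) / mass (U i) p x) atTop (𝓝 (L ω i))) :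
    ∫⁻ ω, ENNReal.ofReal (∑ i, c i * hfun (L ω i)) ∂μ ≤ ENNReal.ofReal δ := by
  classical
  have hc := hT.cpos
  have hmpos : ∀ᶠ x : ℕ in atTop, ∀ i, 0 < mass (U i) p x := by
    rw [eventually_all]
    intro i
    exact (hT.rates i).div.eventually_gt_atTop 0
  have hp : ∀ x : ℕ, ∀ n ∈ ind (tot U) x, 0 < p n ∧ p n < 1 := by
    intro x n hn
    obtain ⟨-, i, hi⟩ := mem_ind.1 hn
    exact ⟨(hT.rates i).pos n hi, (hT.rates i).lt_one n hi⟩
  -- the function of the finite sets
  set g : ℕ → ℕ → Finset ℕ → ℝ := fun r x T => ∑ i, (mass (U i) p x / Λ x) * phi r (num U i T / mass (U i) p x) with hg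
  have hE : ∀ (r : ℕ) (ε : ℝ), 0 < ε → ∀ᶠ x : ℕ in atTop,
      ∫⁻ ω, ENNReal.ofReal (g r x (tr A (ind (tot U) x) ω)) ∂μ ≤ ENNReal.ofReal (δ + ε) := by
    intro r ε hε
    have h1 := hrel (ε / 2) (by linarith)
    have h2 := hT.div.eventually_ge_atTop (max 1 (Fintype.card ι * Real.log (r + 1) / (ε / 2)))
    filter_upwards [h1, h2, hmpos] with x h1 h2 hmx
    have hm1 : 1 ≤ Λ x := (le_max_left _ _).trans h2
    have hm2 : Fintype.card ι * Real.log (r + 1) / (ε / 2) ≤ Λ x := (le_max_right _ _).trans h2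
    rw [div_le_iff₀ (by linarith)] at hm2
    have hm0 : 0 < Λ x := by linarith
    have h3 := upl_fin hT.disj x (hp x) μ hA r hmx
    have h4 := (lint_tr μ hA (ind (tot U) x) (fun T => ENNReal.ofReal (g r x T))).2
    have hgn : ∀ T, 0 ≤ g r x T := by
      intro T
      apply sum_nonneg
      intro i _
      have := hmx i
      have := phi_nonneg r (num U i T / mass (U i) p x)
      positivity
    have h5 : ∫⁻ ω, ENNReal.ofReal (g r x (tr A (ind (tot U) x) ω)) ∂μ =
        ENNReal.ofReal (∑ T ∈ (ind (tot U) x).powerset, lawOn μ A (ind (tot U) x) T * g r x T) := by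
      rw [h4, ENNReal.ofReal_sum_of_nonneg fun T _ => mul_nonneg (show 0 ≤ lawOn μ A (ind (tot U) x) T from measureReal_nonneg) (hgn T)]
      apply sum_congr rfl
      intro T hT'
      rw [mul_comm (lawOn μ A (ind (tot U) x) T), ENNReal.ofReal_mul (hgn T)]
      congr 1
      unfold lawOn
      rw [law_set_eq A (mem_powerset.1 hT'), ofReal_measureReal]
    rw [h5]
    apply ENNReal.ofReal_le_ofReal
    have h6 : ∑ T ∈ (ind (tot U) x).powerset, lawOn μ A (ind (tot U) x) T * ∑ i, mass (U i) p x * phi r (num U i T / mass (U i) p x) =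
        Λ x * ∑ T ∈ (ind (tot U) x).powerset, lawOn μ A (ind (tot U) x) T * g r x T := by
      rw [mul_sum]
      apply sum_congr rfl
      intro T _
      rw [hg]
      simp only
      rw [mul_left_comm]
      congr 1
      rw [mul_sum]
      apply sum_congr rfl
      intro i _
      field_simp
    rw [h6] at h3
    have h7 : Λ x * ∑ T ∈ (ind (tot U) x).powerset, lawOn μ A (ind (tot U) x) T * g r x T ≤ Λ x * (δ + ε) := by
      nlinarith
    exact le_of_mul_le_mul_left h7 hm0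
  -- Fatou
  have hF : ∀ r : ℕ, ∫⁻ ω, ENNReal.ofReal (∑ i, c i * phi r (L ω i)) ∂μ ≤ ENNReal.ofReal δ := by
    intro r
    have h1 : ∫⁻ ω, ENNReal.ofReal (∑ i, c i * phi r (L ω i)) ∂μ ≤
        ∫⁻ ω, liminf (fun x : ℕ => ENNReal.ofReal (g r x (tr A (ind (tot U) x) ω))) atTop ∂μ := by
      apply lintegral_mono_ae
      filter_upwards [hlim] with ω hω
      have h2 : Tendsto (fun x : ℕ => ENNReal.ofReal (g r x (tr A (ind (tot U) x) ω))) atTop
          (𝓝 (ENNReal.ofReal (∑ i, c i * phi r (L ω i)))) := by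
        apply (ENNReal.continuous_ofReal.tendsto _).comp
        apply tendsto_finsetSum
        intro i _
        apply (hT.lim i).mul
        have h3 := ((phi_cont r).tendsto _).comp (hω i)
        refine h3.congr fun x => ?_
        simp only [Function.comp]
        rw [cnt_eq U i A x ω]
      rw [h2.liminf_eq]
    have h2 := lintegral_liminf_le (μ := μ) (u := atTop) (f := fun (x : ℕ) ω => ENNReal.ofReal (g r x (tr A (ind (tot U) x) ω)))
      (fun x => (lint_tr μ hA (ind (tot U) x) (fun T => ENNReal.ofReal (g r x T))).1)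
    refine h1.trans (h2.trans ?_)
    apply ENNReal.le_of_forall_pos_le_add
    intro ε hε _
    have h3 := hE r ε (by exact_mod_cast hε)
    have h4 : liminf (fun x : ℕ => ∫⁻ ω, ENNReal.ofReal (g r x (tr A (ind (tot U) x) ω)) ∂μ) atTop ≤ ENNReal.ofReal (δ + ε) := by
      apply liminf_le_of_frequently_le'
      exact h3.frequently
    refine h4.trans ?_
    rw [ENNReal.ofReal_add hδ (by positivity), ENNReal.ofReal_coe_nnreal]
  have hLi : ∀ i, Measurable fun ω => L ω i := fun i => (measurable_pi_apply i).comp hL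
  have hS : ∫⁻ ω, ⨆ r, ENNReal.ofReal (∑ i, c i * phi r (L ω i)) ∂μ ≤ ENNReal.ofReal δ := by
    rw [lintegral_iSup]
    · exact iSup_le hF
    · intro r
      apply Measurable.ennreal_ofReal
      apply Finset.measurable_fun_sum
      intro i _
      exact ((phi_cont r).measurable.comp (hLi i)).const_mul _
    · intro r s hrs ω
      apply ENNReal.ofReal_le_ofReal
      apply sum_le_sum
      intro i _
      exact mul_le_mul_of_nonneg_left (phi_mono _ hrs) (hc i).le
  refine le_trans (lintegral_mono_ae ?_) hS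
  filter_upwards [hlim] with ω hω
  have h0 : ∀ i, 0 ≤ L ω i := by
    intro i
    apply ge_of_tendsto (hω i)
    filter_upwards [(hT.rates i).div.eventually_ge_atTop 0] with x hx
    positivity
  have h1 : ENNReal.ofReal (∑ i, c i * hfun (L ω i)) ≤ ∑ i, ENNReal.ofReal (c i) * ⨆ r, ENNReal.ofReal (phi r (L ω i)) := by
    rw [ENNReal.ofReal_sum_of_nonneg fun i _ => mul_nonneg (hc i).le (Pool.Agent.Q222.ME.hfun_nonneg (h0 i))]
    apply sum_le_sum
    intro i _
    rw [ENNReal.ofReal_mul (hc i).le]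
    gcongr
    exact hfun_le _ (h0 i)
  refine h1.trans ?_
  have h2 : ∀ i, ENNReal.ofReal (c i) * ⨆ r, ENNReal.ofReal (phi r (L ω i)) = ⨆ r, ENNReal.ofReal (c i * phi r (L ω i)) := by
    intro i
    rw [ENNReal.mul_iSup]
    apply iSup_congr
    intro r
    rw [ENNReal.ofReal_mul (hc i).le]
  simp only [h2]
  rw [ENNReal.finsetSum_iSup_of_monotone]
  · apply iSup_mono
    intro r
    rw [ENNReal.ofReal_sum_of_nonneg fun i _ => mul_nonneg (hc i).le (phi_nonneg _ _)]
  · intro i r s hrs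
    exact ENNReal.ofReal_le_ofReal (mul_le_mul_of_nonneg_left (phi_mono _ hrs) (hc i).le)

end Pool.Agent.Q156.MT
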